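import Pool.Agent.Y256.RZ.Prod

set_option autoImplicit false

namespace Pool.Agent.Y256.RZ

open Set Metric MeasureTheory Filter Topology

variable {n : ℕ}

/-- The radii. -/
noncomputable def rad (k : ℕ) : ℝ := 1 - (1 / 2) ^ (k + 1)

theorem rad_lt_one (k : ℕ) : rad k < 1 := by
  have : (0 : ℝ) < (1 / 2) ^ (k + 1) := by positivity
  unfold rad; linarith

theorem rad_pos (k : ℕ) : 0 < rad k := by
  have : ((1 : ℝ) / 2) ^ (k + 1) < 1 := pow_lt_one₀ (by norm_num) (by norm_num) (by omega)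
  unfold rad; linarith

theorem rad_lt_succ (k : ℕ) : rad k < rad (k + 1) := by
  have h : ((1 : ℝ) / 2) ^ (k + 1 + 1) < (1 / 2) ^ (k + 1) :=
    pow_lt_pow_right_of_lt_one₀ (by norm_num) (by norm_num) (by omega)
  unfold rad; linarith

theorem strictMono_rad : StrictMono rad := strictMono_nat_of_lt_succ rad_lt_succ

theorem exists_rad_gt (x : ℝ) (hx : x < 1) : ∃ j, x < rad j := by
  obtain ⟨j, hj⟩ := exists_pow_lt_of_lt_one (show 0 < 1 - x by linarith)
    (show (1 / 2 : ℝ) < 1 by norm_num)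
  refine ⟨j, ?_⟩
  have h : ((1 : ℝ) / 2) ^ (j + 1) ≤ (1 / 2) ^ j :=
    pow_le_pow_of_le_one (by norm_num) (by norm_num) (by omega)
  unfold rad; linarith

theorem isCompact_le_one (R : ℝ) : IsCompact {z : Fin n → ℂ | nrm z ≤ R} := by
  refine Metric.isCompact_of_isClosed_isBounded (isClosed_le continuous_nrm continuous_const) ?_
  refine (Metric.isBounded_closedBall (x := (0 : Fin n → ℂ)) (r := |R|)).subset ?_
  intro z hz
  rw [mem_closedBall_zero_iff, pi_norm_le_iff_of_nonneg (abs_nonneg R)]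
  intro i
  have h2 : ‖z i‖ ^ 2 ≤ ∑ i, ‖z i‖ ^ 2 :=
    Finset.single_le_sum (f := fun i => ‖z i‖ ^ 2) (fun _ _ => by positivity)
      (Finset.mem_univ i)
  have h3 : ‖z i‖ ≤ nrm z := Real.le_sqrt_of_sq_le h2
  exact (h3.trans hz).trans (le_abs_self R)

/-- Almost every point is eventually outside the exceptional cones. -/
theorem ae_eventually (A : ℕ → Set (Fin n → ℂ))
    (hA : ∀ k, ∀ R : ℝ, volume (A k ∩ {z | nrm z ≤ R})
      ≤ ENNReal.ofReal ((1 / 2) ^ k) * volume {z : Fin n → ℂ | nrm z ≤ R}) :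
    ∀ᵐ z : Fin n → ℂ, ∀ᶠ k in atTop, z ∉ A k := by
  have h1 : ∀ R : ℕ, ∀ᵐ z : Fin n → ℂ, ∀ᶠ k in atTop, z ∉ A k ∩ {z | nrm z ≤ (R : ℝ)} := by
    intro R
    apply ae_eventually_notMem
    have h2 : volume {z : Fin n → ℂ | nrm z ≤ (R : ℝ)} ≠ ⊤ := (isCompact_le_one (R : ℝ)).measure_ne_top
    have h3 : ∑' k, volume (A k ∩ {z | nrm z ≤ (R : ℝ)})
        ≤ ∑' k : ℕ, ENNReal.ofReal ((1 / 2) ^ k) * volume {z : Fin n → ℂ | nrm z ≤ (R : ℝ)} :=
      ENNReal.tsum_le_tsum fun k => hA k R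
    refine ne_top_of_le_ne_top ?_ h3
    rw [ENNReal.tsum_mul_right]
    refine ENNReal.mul_ne_top ?_ h2
    have h4 : Summable (fun k : ℕ => ((1 : ℝ) / 2) ^ k) := summable_geometric_two
    exact h4.tsum_ofReal_ne_top
  filter_upwards [ae_all_iff.mpr h1] with z hz
  obtain ⟨R, hR⟩ := exists_nat_ge (nrm z)
  filter_upwards [hz R] with k hk hkA
  exact hk ⟨hkA, hR⟩

/-- Given `x` in the last part of the unit interval, locate it between consecutive radii. -/
theorem exists_between_rad (m₀ : ℕ) (r : ℝ) (hr0 : rad (m₀ + 1) ≤ r) (hr1 : r < 1) :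
    ∃ m, m₀ ≤ m ∧ rad (m + 1) ≤ r ∧ r < rad (m + 2) := by
  classical
  obtain ⟨j, hj⟩ := exists_rad_gt r hr1
  have hex : ∃ m, r < rad (m + 2) := ⟨j, hj.trans (strictMono_rad (by omega))⟩
  refine ⟨Nat.find hex, ?_, ?_, Nat.find_spec hex⟩
  · by_contra h
    push Not at h
    have h2 := Nat.find_spec hex
    have h3 : rad (Nat.find hex + 2) ≤ rad (m₀ + 1) := strictMono_rad.monotone (by omega)
    linarith
  · by_contra h
    push Not at h
    rcases Nat.eq_zero_or_pos (Nat.find hex) with h0 | h0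
    · rw [h0] at h
      have h3 : rad (0 + 1) ≤ rad (m₀ + 1) := strictMono_rad.monotone (by omega)
      linarith
    · have h4 := Nat.find_min hex (m := Nat.find hex - 1) (by omega)
      apply h4
      have : Nat.find hex - 1 + 2 = Nat.find hex + 1 := by omega
      rw [this]
      exact h

/-- Radial limit zero almost everywhere. -/
theorem radial_zero (n : ℕ) : ∃ f : (Fin n → ℂ) → ℂ,
    DifferentiableOn ℂ f {z | nrm z < 1} ∧ f 0 ≠ 0 ∧
    ∀ᵐ z : Fin n → ℂ, z ≠ 0 → Tendsto (fun r : ℝ => f (((r / nrm z : ℝ) : ℂ) • z))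
      (𝓝[<] (1 : ℝ)) (𝓝 0) := by
  classical
  have hstage := fun k : ℕ => stage n (rad k) (rad (k + 1)) (rad_pos k) (rad_lt_succ k)
    (rad_lt_one _) ((1 / 2) ^ k) (by positivity)
  choose C hC1 hC using hstage
  set η : ℕ → ℝ := fun k => 1 / 8 * (1 / 2) ^ k / C (k + 1) with hη
  have hC0 : ∀ k, 0 < C k := fun k => lt_of_lt_of_le one_pos (hC1 k)
  have hη0 : ∀ k, 0 < η k := fun k => by
    have := hC0 (k + 1)
    simp only [hη]; positivity
  have hη1 : ∀ k, η k ≤ 1 / 8 * (1 / 2) ^ k := fun k => by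
    simp only [hη]
    exact div_le_self (by positivity) (hC1 _)
  have hη2 : ∀ k, η k ≤ 1 := fun k => by
    have h1 : ((1 : ℝ) / 2) ^ k ≤ 1 := pow_le_one₀ (by norm_num) (by norm_num)
    have := hη1 k
    linarith
  have hst := fun k : ℕ => hC k (η k) (hη0 k) (hη2 k)
  choose g A hg hAm hg1 hg2 hg3 hAs hAv using hst
  obtain ⟨f, hf, hfb⟩ := exists_prod g rad η hg strictMono_rad.monotone exists_rad_gt hη1 hg1
  refine ⟨f, hf, ?_, ?_⟩
  · have h := (hfb 0 0 (by rw [nrm_zero]; exact (rad_pos 0).le)).1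
    intro h0
    rw [h0, norm_zero] at h
    simp [PP] at h
    linarith
  · filter_upwards [ae_eventually A hAv] with z hz hz0
    have hρ := nrm_pos hz0
    obtain ⟨k₀, hk₀⟩ := eventually_atTop.mp hz
    have hPPd : Differentiable ℂ (PP g k₀) := differentiable_prod _ _ fun k _ => hg k
    obtain ⟨B, hB⟩ := (isCompact_le_one (n := n) 1).exists_bound_of_continuousOn
      hPPd.continuous.continuousOn
    have hB0 : 0 ≤ B := (norm_nonneg _).trans (hB 0 (by simp [nrm_zero]))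
    rw [Metric.tendsto_nhds]
    intro e he
    obtain ⟨m₁, hm₁⟩ := exists_pow_lt_of_lt_one (show 0 < e / (B + 1) by positivity)
      (show (1 / 2 : ℝ) < 1 by norm_num)
    set m₀ := max k₀ m₁ with hm₀
    have hmem : Ico (rad (m₀ + 1)) 1 ∈ 𝓝[<] (1 : ℝ) := by
      refine mem_of_superset (Ioo_mem_nhdsLT (rad_lt_one (m₀ + 1))) Ioo_subset_Ico_self
    filter_upwards [hmem] with r hr
    obtain ⟨m, hm, hr1, hr2⟩ := exists_between_rad m₀ r hr.1 hr.2
    have hr0 : 0 < r := lt_of_lt_of_le (rad_pos _) hr1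
    set x : Fin n → ℂ := ((r / nrm z : ℝ) : ℂ) • z with hx
    have hxn : nrm x = r := by
      rw [hx, nrm_smul, Complex.norm_real, Real.norm_eq_abs, abs_of_pos (by positivity)]
      field_simp
    have hxA : ∀ k, k₀ ≤ k → x ∉ A k := fun k hk => hAs k z (hk₀ k hk) _ (by positivity)
    have hx1 : nrm x ≤ 1 := by rw [hxn]; exact hr.2.le
    have h1 := (hfb (m + 2) x (by rw [hxn]; exact hr2.le)).2
    have hk₀m : k₀ ≤ m := (le_max_left _ _).trans hm
    have h2 : PP g (m + 2) x = PP g k₀ x * (∏ k ∈ Finset.Ico k₀ m, g k x) * g m x * g (m + 1) x := by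
      have e1 : PP g (m + 2) x = PP g m x * g m x * g (m + 1) x := by
        simp only [PP, Finset.prod_range_succ]
      have e2 : PP g m x = PP g k₀ x * ∏ k ∈ Finset.Ico k₀ m, g k x :=
        (Finset.prod_range_mul_prod_Ico _ hk₀m).symm
      rw [e1, e2]
    have h3 : ‖∏ k ∈ Finset.Ico k₀ m, g k x‖ ≤ 1 := by
      rw [norm_prod]
      refine Finset.prod_le_one (fun _ _ => norm_nonneg _) fun k hk => ?_
      obtain ⟨hk1, hk2⟩ := Finset.mem_Ico.mp hk
      refine (hg3 k x (hxA k hk1) ?_ hx1).trans (hη2 k)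
      rw [hxn]
      exact (strictMono_rad.monotone (by omega)).trans hr1
    have h4 : ‖g m x‖ ≤ η m := hg3 m x (hxA m hk₀m) (by rw [hxn]; exact hr1) hx1
    have h5 : ‖g (m + 1) x‖ ≤ C (m + 1) := hg2 (m + 1) x (hxA _ (by omega)) hx1
    have h6 : ‖PP g (m + 2) x‖ ≤ B * 1 * η m * C (m + 1) := by
      rw [h2, norm_mul, norm_mul, norm_mul]
      have := hB x hx1
      have := (hη0 m).le
      gcongr
    have h7 : η m * C (m + 1) = 1 / 8 * (1 / 2) ^ m := by
      simp only [hη]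
      have := (hC0 (m + 1)).ne'
      field_simp
    have h8 : ((1 : ℝ) / 2) ^ m ≤ (1 / 2) ^ m₁ :=
      pow_le_pow_of_le_one (by norm_num) (by norm_num) ((le_max_right _ _).trans hm)
    rw [dist_zero_right]
    calc ‖f x‖ ≤ 2 * ‖PP g (m + 2) x‖ := h1
      _ ≤ 2 * (B * 1 * η m * C (m + 1)) := by gcongr
      _ = 1 / 4 * B * (1 / 2) ^ m := by
          rw [show B * 1 * η m * C (m + 1) = B * (η m * C (m + 1)) by ring, h7]; ring
      _ ≤ (B + 1) * (1 / 2) ^ m₁ := by
          have h9 : (0 : ℝ) < (1 / 2) ^ m₁ := by positivity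
          nlinarith [mul_le_mul_of_nonneg_left h8 hB0]
      _ < (B + 1) * (e / (B + 1)) := by
          have : 0 < B + 1 := by linarith
          gcongr
      _ = e := by
          have : B + 1 ≠ 0 := by positivity
          field_simp

end Pool.Agent.Y256.RZ
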