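import Pool.Agent.Y256.RZ.Sector

set_option autoImplicit false

namespace Pool.Agent.Y256.RZ

open Set Metric MeasureTheory

variable {n : ℕ}

/-- Euclidean norm on `ℂ^n`. -/
noncomputable def nrm (z : Fin n → ℂ) : ℝ := Real.sqrt (∑ i, ‖z i‖ ^ 2)

/-- Hermitian pairing. -/
noncomputable def pr (ξ z : Fin n → ℂ) : ℂ := ∑ i, (starRingEnd ℂ) (ξ i) * z i

theorem nrm_eq (z : Fin n → ℂ) : nrm z = ‖(WithLp.toLp 2 z : EuclideanSpace ℂ (Fin n))‖ := by
  rw [EuclideanSpace.norm_eq]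
  rfl

theorem pr_eq (ξ z : Fin n → ℂ) : pr ξ z =
    inner ℂ (WithLp.toLp 2 ξ : EuclideanSpace ℂ (Fin n)) (WithLp.toLp 2 z) := by
  rw [PiLp.inner_apply, pr]
  refine Finset.sum_congr rfl fun i _ => ?_
  simp [mul_comm]

theorem norm_pr_le (ξ z : Fin n → ℂ) : ‖pr ξ z‖ ≤ nrm ξ * nrm z := by
  rw [pr_eq, nrm_eq, nrm_eq]
  exact norm_inner_le_norm _ _

theorem nrm_nonneg (z : Fin n → ℂ) : 0 ≤ nrm z := Real.sqrt_nonneg _

theorem nrm_zero : nrm (0 : Fin n → ℂ) = 0 := by simp [nrm]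

theorem nrm_smul (c : ℂ) (z : Fin n → ℂ) : nrm (c • z) = ‖c‖ * nrm z := by
  rw [nrm_eq, nrm_eq, WithLp.toLp_smul, norm_smul]

theorem nrm_pos {z : Fin n → ℂ} (hz : z ≠ 0) : 0 < nrm z := by
  rw [nrm_eq]
  rw [norm_pos_iff]
  intro h
  apply hz
  have := congrArg WithLp.ofLp h
  simpa using this

theorem pr_smul (c : ℂ) (ξ z : Fin n → ℂ) : pr ξ (c • z) = c * pr ξ z := by
  simp only [pr, Pi.smul_apply, smul_eq_mul, Finset.mul_sum]
  refine Finset.sum_congr rfl fun i _ => by ring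

theorem continuous_nrm : Continuous (nrm : (Fin n → ℂ) → ℝ) := by
  unfold nrm
  fun_prop

theorem differentiable_pr (ξ : Fin n → ℂ) : Differentiable ℂ (pr ξ) := by
  unfold pr
  fun_prop

theorem continuous_pr (ξ : Fin n → ℂ) : Continuous (pr ξ) := (differentiable_pr ξ).continuous

/-- A finite net of directions. -/
theorem exists_net (n : ℕ) (δ : ℝ) (hδ : 0 < δ) : ∃ T : Finset (Fin n → ℂ),
    (∀ ξ ∈ T, nrm ξ = 1) ∧ ∀ z : Fin n → ℂ, z ≠ 0 → ∃ ξ ∈ T, (1 - δ) * nrm z ≤ ‖pr ξ z‖ := by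
  classical
  have hcomp : IsCompact (sphere (0 : EuclideanSpace ℂ (Fin n)) 1) := isCompact_sphere _ _
  obtain ⟨t, hts, htf, hcov⟩ := hcomp.finite_cover_balls hδ
  refine ⟨htf.toFinset.image (fun x => WithLp.ofLp x), ?_, ?_⟩
  · intro ξ hξ
    obtain ⟨x, hx, rfl⟩ := Finset.mem_image.mp hξ
    have := hts (htf.mem_toFinset.mp hx)
    rw [nrm_eq]
    simpa using this
  · intro z hz
    have hz0 := nrm_pos hz
    let ζ : EuclideanSpace ℂ (Fin n) := ((nrm z)⁻¹ : ℂ) • WithLp.toLp 2 z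
    have hζ : ‖ζ‖ = 1 := by
      rw [norm_smul, ← nrm_eq, norm_inv, Complex.norm_real, Real.norm_eq_abs, abs_of_pos hz0]
      field_simp
    have hmem : ζ ∈ ⋃ x ∈ t, ball x δ := hcov (by simpa using hζ)
    simp only [mem_iUnion, mem_ball] at hmem
    obtain ⟨x, hx, hd⟩ := hmem
    refine ⟨WithLp.ofLp x, Finset.mem_image_of_mem _ (htf.mem_toFinset.mpr hx), ?_⟩
    have hxn : ‖x‖ = 1 := by simpa using hts hx
    have h1 : inner ℂ x ζ = (1 : ℂ) + inner ℂ x (ζ - x) := by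
      rw [inner_sub_right, inner_self_eq_norm_sq_to_K, hxn]
      simp
    have h2 : 1 - δ ≤ ‖inner ℂ x ζ‖ := by
      rw [h1]
      have h3 : ‖inner ℂ x (ζ - x)‖ ≤ δ := by
        calc ‖inner ℂ x (ζ - x)‖ ≤ ‖x‖ * ‖ζ - x‖ := norm_inner_le_norm _ _
          _ ≤ δ := by rw [hxn, one_mul, ← dist_eq_norm]; exact hd.le
      have h4 : ‖(1 : ℂ)‖ ≤ ‖(1 : ℂ) + inner ℂ x (ζ - x)‖ + ‖inner ℂ x (ζ - x)‖ := by
        calc ‖(1 : ℂ)‖ = ‖((1 : ℂ) + inner ℂ x (ζ - x)) - inner ℂ x (ζ - x)‖ := by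
              congr 1; ring
          _ ≤ _ := norm_sub_le _ _
      rw [norm_one] at h4
      linarith
    have h5 : inner ℂ x ζ = ((nrm z)⁻¹ : ℂ) * pr (WithLp.ofLp x) z := by
      rw [inner_smul_right, pr_eq]
    rw [h5, norm_mul, norm_inv, Complex.norm_real, Real.norm_eq_abs, abs_of_pos hz0,
      inv_mul_eq_div, le_div_iff₀ hz0] at h2
    exact h2

theorem measurePreserving_smul (ε : ℂ) (hε : ‖ε‖ = 1) :
    MeasurePreserving (fun z : Fin n → ℂ => ε • z) volume volume := by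
  have h : MeasurePreserving (fun w : ℂ => ε * w) volume volume := by
    have := (rotation (⟨ε, by simpa [Submonoid.unitSphere] using hε⟩ : Circle)).measurePreserving
    exact this
  exact volume_preserving_pi (fun _ : Fin n => h)

/-- The exceptional cone attached to the direction `ξ`, exponent `M` and opening `c`. -/
def Bad (ξ : Fin n → ℂ) (M : ℕ) (c : ℝ) : Set (Fin n → ℂ) := {z | pr ξ z ^ M ∉ Lam c}

theorem measurableSet_Bad (ξ : Fin n → ℂ) (M : ℕ) (c : ℝ) : MeasurableSet (Bad ξ M c) := by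
  have : Bad ξ M c = ((fun z => pr ξ z ^ M) ⁻¹' (Lam c))ᶜ := rfl
  rw [this]
  exact (((isClosed_Lam c).preimage ((continuous_pr ξ).pow M)).measurableSet).compl

theorem notMem_Bad_smul {ξ : Fin n → ℂ} {M : ℕ} {c : ℝ} {z : Fin n → ℂ} (hz : z ∉ Bad ξ M c)
    {r : ℝ} (hr : 0 < r) : (r : ℂ) • z ∉ Bad ξ M c := by
  have h1 : pr ξ z ^ M ∈ Lam c := not_not.mp hz
  intro h2
  apply h2
  rw [pr_smul, mul_pow, ← Complex.ofReal_pow]
  exact Lam_smul h1 (by positivity)

theorem measure_Bad_le (N : ℕ) (hN : 0 < N) (c : ℝ)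
    (hc : ∀ u ω : ℂ, ω ^ N = 1 → ω ≠ 1 → u ∉ Lam c → ω * u ∈ Lam c)
    (ξ : Fin n → ℂ) (M : ℕ) (hM : 0 < M) (R : ℝ) :
    (N : ENNReal) * volume (Bad ξ M c ∩ {z : Fin n → ℂ | nrm z ≤ R})
      ≤ volume {z : Fin n → ℂ | nrm z ≤ R} := by
  classical
  set D : Set (Fin n → ℂ) := {z | nrm z ≤ R} with hD
  have hDm : MeasurableSet D := (isClosed_le continuous_nrm continuous_const).measurableSet
  have hAm : MeasurableSet (Bad ξ M c ∩ D) := (measurableSet_Bad ξ M c).inter hDm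
  set ε : ℂ := Complex.exp (2 * Real.pi * Complex.I / ((N * M : ℕ) : ℂ)) with hε
  have hNM : N * M ≠ 0 := Nat.mul_ne_zero hN.ne' hM.ne'
  have hprim : IsPrimitiveRoot ε (N * M) := Complex.isPrimitiveRoot_exp _ hNM
  have hεn : ‖ε‖ = 1 := hprim.norm'_eq_one hNM
  have hω : IsPrimitiveRoot (ε ^ M) N := by
    have := hprim.pow (Nat.pos_of_ne_zero hNM) (show N * M = M * N by ring)
    exact this
  -- the rotated sets
  let A : ℕ → Set (Fin n → ℂ) := fun l => (fun z => (ε ^ l) • z) ⁻¹' (Bad ξ M c ∩ D)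
  have hεl : ∀ l : ℕ, ‖ε ^ l‖ = 1 := fun l => by rw [norm_pow, hεn, one_pow]
  have hmeas : ∀ l, volume (A l) = volume (Bad ξ M c ∩ D) := fun l =>
    (measurePreserving_smul (ε ^ l) (hεl l)).measure_preimage hAm.nullMeasurableSet
  have hAmeas : ∀ l, MeasurableSet (A l) := fun l =>
    (measurePreserving_smul (ε ^ l) (hεl l)).measurable hAm
  have hsub : ∀ l, A l ⊆ D := by
    intro l z hz
    have h2 : nrm ((ε ^ l) • z) ≤ R := hz.2
    rw [nrm_smul, hεl, one_mul] at h2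
    exact h2
  have hdisj : ∀ l < N, ∀ l' < N, l < l' → Disjoint (A l) (A l') := by
    intro l hl l' hl' hll
    rw [Set.disjoint_left]
    intro z hz hz'
    have h1 : (ε ^ l) ^ M * pr ξ z ^ M ∉ Lam c := by
      have h : pr ξ ((ε ^ l) • z) ^ M ∉ Lam c := hz.1
      rwa [pr_smul, mul_pow] at h
    have h2 : (ε ^ l') ^ M * pr ξ z ^ M ∉ Lam c := by
      have h : pr ξ ((ε ^ l') • z) ^ M ∉ Lam c := hz'.1
      rwa [pr_smul, mul_pow] at h
    apply h2
    have h3 := hc _ ((ε ^ M) ^ (l' - l)) (by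
      rw [← pow_mul, mul_comm, pow_mul, hω.pow_eq_one, one_pow]) (by
      intro h
      have := (hω.pow_eq_one_iff_dvd (l' - l)).mp h
      have := Nat.le_of_dvd (by omega) this
      omega) h1
    have h4 : (ε ^ M) ^ (l' - l) * ((ε ^ l) ^ M * pr ξ z ^ M) = (ε ^ l') ^ M * pr ξ z ^ M := by
      rw [← mul_assoc]
      congr 1
      rw [← pow_mul, ← pow_mul, ← pow_mul, ← pow_add]
      congr 1
      have : l' = (l' - l) + l := by omega
      calc M * (l' - l) + l * M = ((l' - l) + l) * M := by ring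
        _ = l' * M := by rw [← this]
    rwa [h4] at h3
  have hpd : Set.PairwiseDisjoint (↑(Finset.range N)) A := by
    intro l hl l' hl' hne
    have hl1 : l < N := by simpa using hl
    have hl2 : l' < N := by simpa using hl'
    rcases lt_or_gt_of_ne hne with h | h
    · exact hdisj l hl1 l' hl2 h
    · exact (hdisj l' hl2 l hl1 h).symm
  calc (N : ENNReal) * volume (Bad ξ M c ∩ D)
      = ∑ l ∈ Finset.range N, volume (A l) := by
        rw [Finset.sum_congr rfl (fun l _ => hmeas l)]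
        simp
    _ = volume (⋃ l ∈ Finset.range N, A l) :=
        (measure_biUnion_finset hpd (fun l _ => hAmeas l)).symm
    _ ≤ volume D := by
        apply measure_mono
        intro z hz
        simp only [mem_iUnion] at hz
        obtain ⟨l, _, hl⟩ := hz
        exact hsub l hl

end Pool.Agent.Y256.RZ
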