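import Pool.Agent.Y256.RZ.Zero

set_option autoImplicit false

namespace Pool.Agent.Y256.RZ

open Set Metric MeasureTheory Filter Topology

variable {n : ℕ}

/-- The transition function for radial limit infinity. -/
theorem exists_H (c A η t : ℝ) (hc : 0 < c) (hc2 : c ≤ 1 / 2) (hA : 1 ≤ A) (hη : 0 < η)
    (hη1 : η ≤ 1) (ht : 0 < t) :
    ∃ H : Polynomial ℂ,
      (∀ v : ℂ, ‖v‖ ≤ η * t / (4 * A) → ‖v‖ ≤ 1 → ‖H.eval v - 1‖ ≤ η) ∧
      (∀ v ∈ Lam c, ‖v‖ ≤ 1 → c / 4 ≤ ‖H.eval v‖) ∧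
      (∀ v ∈ Lam c, 8 * t ≤ ‖v‖ → ‖v‖ ≤ 1 → A / 2 ≤ ‖H.eval v‖) := by
  have hA0 : 0 < A := by linarith
  obtain ⟨p, hp⟩ := runge c t (c * η / (4 * A) / t) hc ht (by positivity)
  set Q : Polynomial ℂ := Polynomial.C (t : ℂ) * p with hQ
  set τ : ℝ := c * η / (4 * A) with hτ
  have hτ1 : A * τ ≤ c / 4 := by
    rw [hτ]
    have : A * (c * η / (4 * A)) = c * η / 4 := by field_simp
    rw [this]; nlinarith
  have hτ2 : A * τ ≤ η / 8 := by
    rw [hτ]
    have : A * (c * η / (4 * A)) = c * η / 4 := by field_simp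
    rw [this]; nlinarith
  have key : ∀ v : ℂ, ‖v‖ ≤ 1 → (∀ s : ℝ, t ≤ s → c * s ≤ ‖v + (s : ℂ)‖) →
      ‖Q.eval v - (t : ℂ) * (v + (t : ℂ))⁻¹‖ ≤ τ := by
    intro v hv1 hv2
    have h := hp v hv1 hv2
    rw [hQ, Polynomial.eval_mul, Polynomial.eval_C, ← mul_sub, norm_mul, Complex.norm_real,
      Real.norm_eq_abs, abs_of_pos ht]
    calc t * ‖p.eval v - (v + (t : ℂ))⁻¹‖ ≤ t * (τ / t) := by gcongr
      _ = τ := by field_simp
  have hnormt : ‖(t : ℂ)‖ = t := by rw [Complex.norm_real, Real.norm_eq_abs, abs_of_pos ht]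
  have hnormA : ‖(A : ℂ)‖ = A := by rw [Complex.norm_real, Real.norm_eq_abs, abs_of_pos hA0]
  set H : Polynomial ℂ := Polynomial.C ((1 : ℂ) + A) - Polynomial.C (A : ℂ) * Q with hH
  have hHe : ∀ v, H.eval v = (1 + A) - A * Q.eval v := by
    intro v; simp [hH]
  refine ⟨H, ?_, ?_, ?_⟩
  · intro v hv hv1
    have hv' : ‖v‖ * (4 * A) ≤ η * t := by rwa [le_div_iff₀ (by positivity)] at hv
    have hvt : ‖v‖ ≤ t / 4 := by nlinarith [norm_nonneg v]
    have hlow : ∀ s : ℝ, t ≤ s → 3 / 4 * s ≤ ‖v + (s : ℂ)‖ := by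
      intro s hs
      have h1 : ‖(s : ℂ)‖ = s := by
        rw [Complex.norm_real, Real.norm_eq_abs, abs_of_pos (lt_of_lt_of_le ht hs)]
      have h2 : ‖(s : ℂ)‖ ≤ ‖v + (s : ℂ)‖ + ‖v‖ := by
        calc ‖(s : ℂ)‖ = ‖(v + (s : ℂ)) - v‖ := by congr 1; ring
          _ ≤ _ := norm_sub_le _ _
      rw [h1] at h2
      linarith
    have h := key v hv1 (fun s hs => by
      have := hlow s hs
      have hs0 : 0 < s := lt_of_lt_of_le ht hs
      nlinarith)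
    have hne : v + (t : ℂ) ≠ 0 := by
      intro h0
      have := hlow t le_rfl
      rw [h0, norm_zero] at this
      linarith
    have h5 : ‖(t : ℂ) * (v + (t : ℂ))⁻¹ - 1‖ ≤ η / (3 * A) := by
      have : (t : ℂ) * (v + (t : ℂ))⁻¹ - 1 = -v * (v + (t : ℂ))⁻¹ := by
        field_simp
        ring
      rw [this, norm_mul, norm_neg, norm_inv]
      have h6 := hlow t le_rfl
      rw [← div_eq_mul_inv, div_le_iff₀ (by linarith)]
      calc ‖v‖ ≤ η * t / (4 * A) := hv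
        _ = η / (3 * A) * (3 / 4 * t) := by field_simp
        _ ≤ _ := by gcongr
    have h6 : H.eval v - 1 = (A : ℂ) * (1 - Q.eval v) := by rw [hHe]; ring
    have h7 : ‖1 - Q.eval v‖ ≤ τ + η / (3 * A) := by
      calc ‖1 - Q.eval v‖ = ‖(Q.eval v - (t : ℂ) * (v + (t : ℂ))⁻¹)
            + ((t : ℂ) * (v + (t : ℂ))⁻¹ - 1)‖ := by rw [← norm_neg]; congr 1; ring
        _ ≤ _ := (norm_add_le _ _).trans (add_le_add h h5)
    rw [h6, norm_mul, hnormA]
    calc A * ‖1 - Q.eval v‖ ≤ A * (τ + η / (3 * A)) := by gcongr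
      _ = A * τ + η / 3 := by field_simp
      _ ≤ η := by linarith
  · intro v hv hv1
    have h := key v hv1 (fun s hs => hv s (ht.le.trans hs))
    have h6 := hv t ht.le
    have hpos : 0 < ‖v + (t : ℂ)‖ := lt_of_lt_of_le (by positivity) h6
    have hne : v + (t : ℂ) ≠ 0 := norm_pos_iff.mp hpos
    -- the model quotient
    have e1 : (1 + A : ℂ) - A * ((t : ℂ) * (v + (t : ℂ))⁻¹)
        = (((1 + A : ℝ) : ℂ) * v + (t : ℂ)) * (v + (t : ℂ))⁻¹ := by
      push_cast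
      field_simp
      ring
    have h7 : c * t ≤ ‖((1 + A : ℝ) : ℂ) * v + (t : ℂ)‖ :=
      (Lam_smul hv (r := 1 + A) (by linarith)) t ht.le
    have h8 : (1 + A) * ‖v‖ ≤ ‖((1 + A : ℝ) : ℂ) * v + (t : ℂ)‖ + t := by
      calc (1 + A) * ‖v‖ = ‖((1 + A : ℝ) : ℂ) * v‖ := by
            rw [norm_mul, Complex.norm_real, Real.norm_eq_abs, abs_of_pos (by linarith)]
        _ = ‖(((1 + A : ℝ) : ℂ) * v + (t : ℂ)) - (t : ℂ)‖ := by congr 1; ring
        _ ≤ _ := (norm_sub_le _ _).trans (by rw [hnormt])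
    have h9 : ‖v + (t : ℂ)‖ ≤ ‖v‖ + t := (norm_add_le _ _).trans (by rw [hnormt])
    have h10 : c / 2 ≤ ‖(1 + A : ℂ) - A * ((t : ℂ) * (v + (t : ℂ))⁻¹)‖ := by
      rw [e1, norm_mul, norm_inv, ← div_eq_mul_inv, le_div_iff₀ hpos]
      rcases le_total ‖v‖ t with hvt | hvt
      · calc c / 2 * ‖v + (t : ℂ)‖ ≤ c / 2 * (t + t) := by gcongr; linarith
          _ = c * t := by ring
          _ ≤ _ := h7
      · nlinarith [norm_nonneg v]
    have h11 : ‖(1 + A : ℂ) - A * ((t : ℂ) * (v + (t : ℂ))⁻¹)‖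
        ≤ ‖H.eval v‖ + A * τ := by
      calc ‖(1 + A : ℂ) - A * ((t : ℂ) * (v + (t : ℂ))⁻¹)‖
          = ‖H.eval v + (A : ℂ) * (Q.eval v - (t : ℂ) * (v + (t : ℂ))⁻¹)‖ := by
            rw [hHe]; congr 1; ring
        _ ≤ ‖H.eval v‖ + ‖(A : ℂ) * (Q.eval v - (t : ℂ) * (v + (t : ℂ))⁻¹)‖ := norm_add_le _ _
        _ ≤ _ := by rw [norm_mul, hnormA]; gcongr
    linarith
  · intro v hv hv8 hv1
    have h := key v hv1 (fun s hs => hv s (ht.le.trans hs))
    have h5 : ‖(t : ℂ) * (v + (t : ℂ))⁻¹‖ ≤ 1 / 7 := by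
      rw [norm_mul, norm_inv, hnormt]
      have h8 : ‖v‖ ≤ ‖v + (t : ℂ)‖ + t := by
        calc ‖v‖ = ‖(v + (t : ℂ)) - (t : ℂ)‖ := by congr 1; ring
          _ ≤ ‖v + (t : ℂ)‖ + ‖(t : ℂ)‖ := norm_sub_le _ _
          _ = _ := by rw [hnormt]
      rw [← div_eq_mul_inv, div_le_iff₀ (by linarith)]
      linarith
    have h6 : A * ‖Q.eval v‖ ≤ A / 7 + c / 4 := by
      have h7 : ‖Q.eval v‖ ≤ τ + 1 / 7 := by
        calc ‖Q.eval v‖ = ‖(Q.eval v - (t : ℂ) * (v + (t : ℂ))⁻¹)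
              + (t : ℂ) * (v + (t : ℂ))⁻¹‖ := by congr 1; ring
          _ ≤ _ := (norm_add_le _ _).trans (add_le_add h h5)
      calc A * ‖Q.eval v‖ ≤ A * (τ + 1 / 7) := by gcongr
        _ = A * τ + A / 7 := by ring
        _ ≤ _ := by linarith
    have h7 : (1 + A) ≤ ‖H.eval v‖ + A * ‖Q.eval v‖ := by
      calc (1 + A) = ‖((1 + A : ℝ) : ℂ)‖ := by
            rw [Complex.norm_real, Real.norm_eq_abs, abs_of_pos (by linarith)]
        _ = ‖H.eval v + (A : ℂ) * Q.eval v‖ := by rw [hHe]; congr 1; push_cast; ring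
        _ ≤ ‖H.eval v‖ + ‖(A : ℂ) * Q.eval v‖ := norm_add_le _ _
        _ = _ := by rw [norm_mul, hnormA]
    linarith

/-- Rotation argument in general form. -/
theorem measure_rot_le (N : ℕ) (hN : 0 < N) (M : ℕ) (hM : 0 < M)
    (φ : (Fin n → ℂ) → ℂ) (hφ : Measurable φ)
    (hφr : ∀ (ε : ℂ) (z : Fin n → ℂ), ‖ε‖ = 1 → φ (ε • z) = ε ^ M * φ z)
    (W : Set ℂ) (hWm : MeasurableSet W)
    (hW : ∀ u ∈ W, ∀ ω : ℂ, ω ^ N = 1 → ω ≠ 1 → ω * u ∉ W) (R : ℝ) :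
    (N : ENNReal) * volume (φ ⁻¹' W ∩ {z : Fin n → ℂ | nrm z ≤ R})
      ≤ volume {z : Fin n → ℂ | nrm z ≤ R} := by
  classical
  set D : Set (Fin n → ℂ) := {z | nrm z ≤ R} with hD
  have hDm : MeasurableSet D := (isClosed_le continuous_nrm continuous_const).measurableSet
  have hAm : MeasurableSet (φ ⁻¹' W ∩ D) := (hφ hWm).inter hDm
  set ε : ℂ := Complex.exp (2 * Real.pi * Complex.I / ((N * M : ℕ) : ℂ)) with hε
  have hNM : N * M ≠ 0 := Nat.mul_ne_zero hN.ne' hM.ne'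
  have hprim : IsPrimitiveRoot ε (N * M) := Complex.isPrimitiveRoot_exp _ hNM
  have hεn : ‖ε‖ = 1 := hprim.norm'_eq_one hNM
  have hω : IsPrimitiveRoot (ε ^ M) N :=
    hprim.pow (Nat.pos_of_ne_zero hNM) (show N * M = M * N by ring)
  let A : ℕ → Set (Fin n → ℂ) := fun l => (fun z => (ε ^ l) • z) ⁻¹' (φ ⁻¹' W ∩ D)
  have hεl : ∀ l : ℕ, ‖ε ^ l‖ = 1 := fun l => by rw [norm_pow, hεn, one_pow]
  have hmeas : ∀ l, volume (A l) = volume (φ ⁻¹' W ∩ D) := fun l =>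
    (measurePreserving_smul (ε ^ l) (hεl l)).measure_preimage hAm.nullMeasurableSet
  have hAmeas : ∀ l, MeasurableSet (A l) := fun l =>
    (measurePreserving_smul (ε ^ l) (hεl l)).measurable hAm
  have hsub : ∀ l, A l ⊆ D := by
    intro l z hz
    have h2 : nrm ((ε ^ l) • z) ≤ R := hz.2
    rw [nrm_smul, hεl, one_mul] at h2
    exact h2
  have hdisj : ∀ l < N, ∀ l' < N, l < l' → Disjoint (A l) (A l') := by
    intro l hl l' hl' hll
    rw [Set.disjoint_left]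
    intro z hz hz'
    have h1 : (ε ^ l) ^ M * φ z ∈ W := by
      have h : φ ((ε ^ l) • z) ∈ W := hz.1
      rwa [hφr _ _ (hεl l)] at h
    have h2 : (ε ^ l') ^ M * φ z ∈ W := by
      have h : φ ((ε ^ l') • z) ∈ W := hz'.1
      rwa [hφr _ _ (hεl l')] at h
    have h3 := hW _ h1 ((ε ^ M) ^ (l' - l)) (by
      rw [← pow_mul, mul_comm, pow_mul, hω.pow_eq_one, one_pow]) (by
      intro h
      have := (hω.pow_eq_one_iff_dvd (l' - l)).mp h
      have := Nat.le_of_dvd (by omega) this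
      omega)
    have h4 : (ε ^ M) ^ (l' - l) * ((ε ^ l) ^ M * φ z) = (ε ^ l') ^ M * φ z := by
      rw [← mul_assoc]
      congr 1
      rw [← pow_mul, ← pow_mul, ← pow_mul, ← pow_add]
      congr 1
      have : l' = (l' - l) + l := by omega
      calc M * (l' - l) + l * M = ((l' - l) + l) * M := by ring
        _ = l' * M := by rw [← this]
    rw [h4] at h3
    exact h3 h2
  have hpd : Set.PairwiseDisjoint (↑(Finset.range N)) A := by
    intro l hl l' hl' hne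
    have hl1 : l < N := by simpa using hl
    have hl2 : l' < N := by simpa using hl'
    rcases lt_or_gt_of_ne hne with h | h
    · exact hdisj l hl1 l' hl2 h
    · exact (hdisj l' hl2 l hl1 h).symm
  calc (N : ENNReal) * volume (φ ⁻¹' W ∩ D)
      = ∑ l ∈ Finset.range N, volume (A l) := by
        rw [Finset.sum_congr rfl (fun l _ => hmeas l)]
        simp
    _ = volume (⋃ l ∈ Finset.range N, A l) :=
        (measure_biUnion_finset hpd (fun l _ => hAmeas l)).symm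
    _ ≤ volume D := by
        apply measure_mono
        intro z hz
        simp only [mem_iUnion] at hz
        obtain ⟨l, _, hl⟩ := hz
        exact hsub l hl

/-- A homogeneous function of nonzero degree takes a nonzero value on a null set only. -/
theorem measure_level_eq_zero (M : ℕ) (hM : 0 < M)
    (φ : (Fin n → ℂ) → ℂ) (hφ : Measurable φ)
    (hφr : ∀ (ε : ℂ) (z : Fin n → ℂ), ‖ε‖ = 1 → φ (ε • z) = ε ^ M * φ z)
    (ρ : ℂ) (hρ : ρ ≠ 0) : ∀ᵐ z : Fin n → ℂ, φ z ≠ ρ := by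
  have h1 : ∀ R : ℕ, volume (φ ⁻¹' {ρ} ∩ {z : Fin n → ℂ | nrm z ≤ (R : ℝ)}) = 0 := by
    intro R
    have hfin : volume {z : Fin n → ℂ | nrm z ≤ (R : ℝ)} ≠ ⊤ :=
      (isCompact_le_one (R : ℝ)).measure_ne_top
    have h2 : ∀ N : ℕ, 0 < N →
        (N : ENNReal) * volume (φ ⁻¹' {ρ} ∩ {z : Fin n → ℂ | nrm z ≤ (R : ℝ)})
          ≤ volume {z : Fin n → ℂ | nrm z ≤ (R : ℝ)} := by
      intro N hN
      refine measure_rot_le N hN M hM φ hφ hφr {ρ} (measurableSet_singleton ρ) ?_ R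
      intro u hu ω _ hω1 hmem
      rw [mem_singleton_iff] at hu hmem
      rw [hu] at hmem
      exact hω1 (mul_right_cancel₀ hρ (by rw [hmem, one_mul]))
    by_contra hne
    obtain ⟨N, hN⟩ := ENNReal.exists_nat_mul_gt hne hfin
    rcases Nat.eq_zero_or_pos N with h0 | h0
    · rw [h0] at hN; simp at hN
    · exact absurd (h2 N h0) (not_le.mpr hN)
  rw [ae_iff]
  have h3 : {z : Fin n → ℂ | ¬φ z ≠ ρ} ⊆ ⋃ R : ℕ, (φ ⁻¹' {ρ} ∩ {z : Fin n → ℂ | nrm z ≤ (R : ℝ)}) := by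
    intro z hz
    obtain ⟨R, hR⟩ := exists_nat_ge (nrm z)
    rw [mem_iUnion]
    exact ⟨R, by simpa using hz, hR⟩
  exact measure_mono_null h3 (measure_iUnion_null h1)

end Pool.Agent.Y256.RZ
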