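import Pool.Agent.Y256.RZ.Infty

set_option autoImplicit false

namespace Pool.Agent.Y256.RZ

open Set Metric MeasureTheory Filter Topology

variable {n : ℕ}

theorem pow_le_prod {ι : Type*} (T : Finset ι) (f : ι → ℝ) (C : ℝ) (h0 : 0 ≤ C)
    (h : ∀ i ∈ T, C ≤ f i) : C ^ T.card ≤ ∏ i ∈ T, f i := by
  have := Finset.prod_le_prod (s := T) (f := fun _ => C) (g := f) (fun _ _ => h0) h
  simpa using this

/-- One stage of the construction for radial limit infinity. -/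
theorem stage_infty (n : ℕ) (a b : ℝ) (ha : 0 < a) (hab : a < b) (hb : b < 1)
    (ε : ℝ) (hε : 0 < ε) :
    ∃ κ : ℝ, 0 < κ ∧ ∀ η : ℝ, 0 < η → η < 1 → ∀ K : ℝ,
      ∃ (g : (Fin n → ℂ) → ℂ) (A : Set (Fin n → ℂ)),
      Differentiable ℂ g ∧ MeasurableSet A ∧
      (∀ z, nrm z ≤ a → ‖g z - 1‖ ≤ η) ∧
      (∀ z, z ∉ A → nrm z ≤ 1 → κ ≤ ‖g z‖) ∧
      (∀ z, z ∉ A → b ≤ nrm z → nrm z ≤ 1 → K ≤ ‖g z‖) ∧
      (∀ z, z ∉ A → ∀ r : ℝ, 0 < r → (r : ℂ) • z ∉ A) ∧
      (∀ R : ℝ, volume (A ∩ {z | nrm z ≤ R})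
        ≤ ENNReal.ofReal ε * volume {z : Fin n → ℂ | nrm z ≤ R}) ∧
      (∀ᵐ z : Fin n → ℂ, g (((nrm z)⁻¹ : ℂ) • z) ≠ 0) := by
  classical
  have hb0 : 0 < b := ha.trans hab
  set δ : ℝ := (b - a) / (2 * b) with hδ
  have hδ0 : 0 < δ := div_pos (by linarith) (by linarith)
  set b' : ℝ := (a + b) / 2 with hb'
  have hbδ : (1 - δ) * b = b' := by
    rw [hδ, hb']; field_simp; ring
  have hab' : a < b' := by rw [hb']; linarith
  have hδ1 : 0 < 1 - δ := by
    have : 0 < (1 - δ) * b := by rw [hbδ]; linarith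
    by_contra h
    push Not at h
    nlinarith
  obtain ⟨T, hT1, hT2⟩ := exists_net n δ hδ0
  obtain ⟨N, hN⟩ := exists_nat_ge ((T.card : ℝ) / ε + 1)
  have hN0 : 0 < N := by
    have : (0 : ℝ) < N := by
      have : (0 : ℝ) ≤ (T.card : ℝ) / ε := by positivity
      linarith
    exact_mod_cast this
  have hTN : (T.card : ℝ) ≤ ε * N := by
    have h : (T.card : ℝ) / ε ≤ N := by linarith
    rw [div_le_iff₀ hε] at h
    linarith
  obtain ⟨c, hc0, hc2, hc⟩ := exists_c N hN0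
  set κ : ℝ := (c / 4) ^ T.card with hκ
  have hκ0 : 0 < κ := by positivity
  refine ⟨κ, hκ0, fun η hη hη1 K => ?_⟩
  have hcard : (0 : ℝ) ≤ T.card := by positivity
  set η' : ℝ := η / (2 * (T.card + 1)) with hη'
  have hη'0 : 0 < η' := by positivity
  have hη'1 : η' ≤ 1 := by
    rw [hη', div_le_one (by positivity)]
    nlinarith
  have hη'T : (T.card : ℝ) * η' ≤ η / 2 := by
    rw [hη', mul_div_assoc', div_le_div_iff₀ (by positivity) (by norm_num)]
    nlinarith [mul_nonneg hcard hη.le]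
  -- amplitude
  set A : ℝ := max 1 (2 * K / κ) with hA
  have hA1 : 1 ≤ A := le_max_left _ _
  have hAK : K ≤ A / 2 * κ := by
    have h : 2 * K / κ ≤ A := le_max_right _ _
    rw [div_le_iff₀ hκ0] at h
    linarith
  have hA0 : 0 < A := by linarith
  obtain ⟨M₀, hM₀⟩ := pow_unbounded_of_one_lt (32 * A / η')
    (show 1 < b' / a by rw [one_lt_div ha]; exact hab')
  set M : ℕ := M₀ + 1 with hM
  have hM0 : 0 < M := Nat.succ_pos _
  have haM : 0 < a ^ M := by positivity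
  have hMb : 32 * A * a ^ M / η' ≤ b' ^ M := by
    have h1 : 32 * A / η' < (b' / a) ^ M := by
      refine hM₀.trans_le (pow_le_pow_right₀ ?_ (Nat.le_succ _))
      rw [one_le_div ha]; exact hab'.le
    rw [div_pow b' a M, lt_div_iff₀ haM] at h1
    calc 32 * A * a ^ M / η' = 32 * A / η' * a ^ M := by ring
      _ ≤ _ := h1.le
  obtain ⟨H, hH1, hH2, hH3⟩ := exists_H c A η' (4 * A * a ^ M / η') hc0 hc2 hA1 hη'0 hη'1
    (by positivity)
  have hpr : ∀ ξ ∈ T, ∀ z : Fin n → ℂ, ‖pr ξ z ^ M‖ ≤ nrm z ^ M := by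
    intro ξ hξ z
    rw [norm_pow]
    have := norm_pr_le ξ z
    rw [hT1 ξ hξ, one_mul] at this
    gcongr
  refine ⟨fun z => ∏ ξ ∈ T, H.eval (pr ξ z ^ M), BadU T M c, ?_, measurableSet_BadU T M c,
    ?_, ?_, ?_, fun z hz r hr => notMem_BadU_smul hz hr,
    fun R => measure_BadU_le N hN0 c hc T M hM0 ε hTN R, ?_⟩
  · refine differentiable_prod T _ fun ξ _ => ?_
    exact H.differentiable.comp ((differentiable_pr ξ).pow M)
  · intro z hz
    have hz1 : nrm z ^ M ≤ a ^ M := pow_le_pow_left₀ (nrm_nonneg z) hz M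
    have h1 : ∀ ξ ∈ T, ‖H.eval (pr ξ z ^ M) - 1‖ ≤ η' := by
      intro ξ hξ
      have h2 := hpr ξ hξ z
      apply hH1
      · calc ‖pr ξ z ^ M‖ ≤ a ^ M := h2.trans hz1
          _ = η' * (4 * A * a ^ M / η') / (4 * A) := by field_simp
      · exact h2.trans (pow_le_one₀ (nrm_nonneg z) (by linarith))
    have h3 : (∏ ξ ∈ T, H.eval (pr ξ z ^ M)) = ∏ ξ ∈ T, (1 + (H.eval (pr ξ z ^ M) - 1)) :=
      Finset.prod_congr rfl fun ξ _ => by ring
    have h4 : ∑ ξ ∈ T, ‖H.eval (pr ξ z ^ M) - 1‖ ≤ η / 2 := by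
      calc ∑ ξ ∈ T, ‖H.eval (pr ξ z ^ M) - 1‖ ≤ ∑ _ξ ∈ T, η' := Finset.sum_le_sum h1
        _ = T.card * η' := by simp
        _ ≤ _ := hη'T
    have h5 : 0 ≤ ∑ ξ ∈ T, ‖H.eval (pr ξ z ^ M) - 1‖ :=
      Finset.sum_nonneg fun _ _ => norm_nonneg _
    have h6 : ‖∏ ξ ∈ T, (1 + (H.eval (pr ξ z ^ M) - 1)) - 1‖
        ≤ Real.exp (∑ ξ ∈ T, ‖H.eval (pr ξ z ^ M) - 1‖) - 1 :=
      Finset.norm_prod_one_add_sub_one_le T (fun ξ => H.eval (pr ξ z ^ M) - 1)
    have h7 := Real.abs_exp_sub_one_le (x := ∑ ξ ∈ T, ‖H.eval (pr ξ z ^ M) - 1‖)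
      (by rw [abs_of_nonneg h5]; linarith)
    rw [abs_of_nonneg h5] at h7
    show ‖(∏ ξ ∈ T, H.eval (pr ξ z ^ M)) - 1‖ ≤ η
    rw [h3]
    have h8 := (le_abs_self _).trans h7
    linarith
  · intro z hz hz1
    rw [notMem_BadU_iff] at hz
    show κ ≤ ‖∏ ξ ∈ T, H.eval (pr ξ z ^ M)‖
    rw [norm_prod]
    refine pow_le_prod _ _ _ (by positivity) fun ξ hξ => ?_
    exact hH2 _ (hz ξ hξ) ((hpr ξ hξ z).trans (pow_le_one₀ (nrm_nonneg z) hz1))
  · intro z hz hzb hz1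
    rw [notMem_BadU_iff] at hz
    have hz0 : z ≠ 0 := by
      rintro rfl
      rw [nrm_zero] at hzb
      linarith
    obtain ⟨ξ₀, hξ₀, hlow⟩ := hT2 z hz0
    show K ≤ ‖∏ ξ ∈ T, H.eval (pr ξ z ^ M)‖
    rw [norm_prod, ← Finset.mul_prod_erase T _ hξ₀]
    have h1 : A / 2 ≤ ‖H.eval (pr ξ₀ z ^ M)‖ := by
      refine hH3 _ (hz ξ₀ hξ₀) ?_ ((hpr ξ₀ hξ₀ z).trans (pow_le_one₀ (nrm_nonneg z) hz1))
      have h2 : b' ≤ ‖pr ξ₀ z‖ := by
        calc b' = (1 - δ) * b := hbδ.symm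
          _ ≤ (1 - δ) * nrm z := by gcongr
          _ ≤ _ := hlow
      calc 8 * (4 * A * a ^ M / η') = 32 * A * a ^ M / η' := by ring
        _ ≤ b' ^ M := hMb
        _ ≤ ‖pr ξ₀ z‖ ^ M := pow_le_pow_left₀ (by linarith) h2 M
        _ = _ := (norm_pow _ _).symm
    have h3 : κ ≤ ∏ ξ ∈ T.erase ξ₀, ‖H.eval (pr ξ z ^ M)‖ := by
      calc κ ≤ (c / 4) ^ (T.erase ξ₀).card := by
            rw [hκ]
            exact pow_le_pow_of_le_one (by positivity) (by linarith)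
              (Finset.card_le_card (Finset.erase_subset _ _))
        _ ≤ _ := by
            refine pow_le_prod _ _ _ (by positivity) fun ξ hξ => ?_
            have hξ' := Finset.mem_of_mem_erase hξ
            exact hH2 _ (hz ξ hξ') ((hpr ξ hξ' z).trans (pow_le_one₀ (nrm_nonneg z) hz1))
    calc K ≤ A / 2 * κ := hAK
      _ ≤ _ := mul_le_mul h1 h3 hκ0.le (norm_nonneg _)
  · -- zeros on the sphere form a null set
    have hH0 : H.eval 0 ≠ 0 := by
      intro h0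
      have h := hH1 0 (by rw [norm_zero]; positivity) (by simp)
      rw [h0, zero_sub, norm_neg, norm_one] at h
      have h2 : η' < 1 := by
        rw [hη', div_lt_one (by positivity)]
        nlinarith
      linarith
    have hHne : H ≠ 0 := by
      rintro rfl
      simp at hH0
    have hlev : ∀ ξ ∈ T, ∀ ρ ∈ H.roots.toFinset,
        ∀ᵐ z : Fin n → ℂ, pr ξ (((nrm z)⁻¹ : ℂ) • z) ^ M ≠ ρ := by
      intro ξ _ ρ hρ
      have hρ0 : ρ ≠ 0 := by
        rintro rfl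
        rw [Multiset.mem_toFinset, Polynomial.mem_roots hHne, Polynomial.IsRoot.def] at hρ
        exact hH0 hρ
      refine measure_level_eq_zero M hM0 (fun z => pr ξ (((nrm z)⁻¹ : ℂ) • z) ^ M) ?_ ?_ ρ hρ0
      · have h1 : Measurable fun z : Fin n → ℂ => ((nrm z)⁻¹ : ℂ) • z := by
          have : Measurable fun z : Fin n → ℂ => ((nrm z : ℂ))⁻¹ :=
            (Complex.measurable_ofReal.comp continuous_nrm.measurable).inv
          exact this.smul measurable_id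
        exact ((continuous_pr ξ).measurable.comp h1).pow_const M
      · intro e z he
        show pr ξ (((nrm (e • z))⁻¹ : ℂ) • e • z) ^ M = e ^ M * pr ξ (((nrm z)⁻¹ : ℂ) • z) ^ M
        rw [nrm_smul, he, one_mul, pr_smul, pr_smul, pr_smul]
        ring
    have hall : ∀ᵐ z : Fin n → ℂ, ∀ ξ ∈ T, ∀ ρ ∈ H.roots.toFinset,
        pr ξ (((nrm z)⁻¹ : ℂ) • z) ^ M ≠ ρ := by
      have h1 : ∀ ξ ∈ T, ∀ᵐ z : Fin n → ℂ, ∀ ρ ∈ H.roots.toFinset,
          pr ξ (((nrm z)⁻¹ : ℂ) • z) ^ M ≠ ρ := by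
        intro ξ hξ
        have h2 := (ae_ball_iff (μ := (volume : Measure (Fin n → ℂ)))
          (S := (↑(H.roots.toFinset) : Set ℂ)) (Finset.countable_toSet _)
          (p := fun z ρ _ => pr ξ (((nrm z)⁻¹ : ℂ) • z) ^ M ≠ ρ)).mpr
          (fun ρ hρ => hlev ξ hξ ρ (by simpa using hρ))
        filter_upwards [h2] with z hz ρ hρ
        exact hz ρ (by simpa using hρ)
      have h3 := (ae_ball_iff (μ := (volume : Measure (Fin n → ℂ)))
          (S := (↑T : Set (Fin n → ℂ))) T.countable_toSet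
          (p := fun z ξ _ => ∀ ρ ∈ H.roots.toFinset,
            pr ξ (((nrm z)⁻¹ : ℂ) • z) ^ M ≠ ρ)).mpr (fun ξ hξ => h1 ξ hξ)
      filter_upwards [h3] with z hz ξ hξ
      exact hz ξ hξ
    filter_upwards [hall] with z hz
    show ∏ ξ ∈ T, H.eval (pr ξ (((nrm z)⁻¹ : ℂ) • z) ^ M) ≠ 0
    rw [Finset.prod_ne_zero_iff]
    intro ξ hξ h0
    refine hz ξ hξ _ ?_ rfl
    rw [Multiset.mem_toFinset, Polynomial.mem_roots hHne]
    exact h0

/-- Radial limit infinity almost everywhere, at any prescribed speed. -/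
theorem radial_infty (n : ℕ) (ψ : ℝ → ℝ) (hψ : ∀ b < 1, BddAbove (ψ '' Icc 0 b)) :
    ∃ f : (Fin n → ℂ) → ℂ,
    DifferentiableOn ℂ f {z | nrm z < 1} ∧ f 0 ≠ 0 ∧
    ∀ᵐ z : Fin n → ℂ, z ≠ 0 →
      (∀ᶠ r : ℝ in 𝓝[<] (1 : ℝ), ψ r ≤ ‖f (((r / nrm z : ℝ) : ℂ) • z)‖) ∧
      Tendsto (fun r : ℝ => ‖f (((r / nrm z : ℝ) : ℂ) • z)‖) (𝓝[<] (1 : ℝ)) atTop := by
  classical
  have hstage := fun k : ℕ => stage_infty n (rad k) (rad (k + 1)) (rad_pos k) (rad_lt_succ k)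
    (rad_lt_one _) ((1 / 2) ^ k) (by positivity)
  choose κ hκ0 hκ using hstage
  have hS : ∀ k : ℕ, ∃ S : ℝ, 0 ≤ S ∧ ∀ r, 0 ≤ r → r ≤ rad (k + 2) → ψ r ≤ S := by
    intro k
    obtain ⟨S, hS⟩ := hψ (rad (k + 2)) (rad_lt_one _)
    refine ⟨max S 0, le_max_right _ _, fun r h0 h1 => ?_⟩
    exact (hS ⟨r, ⟨h0, h1⟩, rfl⟩).trans (le_max_left _ _)
  choose S hS0 hS using hS
  set η : ℕ → ℝ := fun k => 1 / 8 * (1 / 2) ^ k with hη
  have hη0 : ∀ k, 0 < η k := fun k => by simp only [hη]; positivity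
  have hη1 : ∀ k, η k < 1 := fun k => by
    have h1 : ((1 : ℝ) / 2) ^ k ≤ 1 := pow_le_one₀ (by norm_num) (by norm_num)
    simp only [hη]; linarith
  set K : ℕ → ℝ := fun k => max 1 ((k + 1) * (1 + S k) / κ (k + 1)) with hK
  have hst := fun k : ℕ => hκ k (η k) (hη0 k) (hη1 k) (K k)
  choose g A hg hAm hg1 hg2 hg3 hAs hAv hg0 using hst
  obtain ⟨f, hf, hfb⟩ := exists_prod g rad η hg strictMono_rad.monotone exists_rad_gt
    (fun k => le_rfl) hg1
  refine ⟨f, hf, ?_, ?_⟩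
  · have h := (hfb 0 0 (by rw [nrm_zero]; exact (rad_pos 0).le)).1
    intro h0
    rw [h0, norm_zero] at h
    simp [PP] at h
    linarith
  · filter_upwards [ae_eventually A hAv, ae_all_iff.mpr hg0] with z hz hgz hz0
    have hρ := nrm_pos hz0
    obtain ⟨k₀, hk₀⟩ := eventually_atTop.mp hz
    have hPPd : Differentiable ℂ (PP g k₀) := differentiable_prod _ _ fun k _ => hg k
    -- the boundary value of the first factors
    set ζ : Fin n → ℂ := ((nrm z)⁻¹ : ℂ) • z with hζ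
    have hPζ : PP g k₀ ζ ≠ 0 := by
      rw [PP, Finset.prod_ne_zero_iff]
      exact fun k _ => hgz k
    have hcurve : Tendsto (fun r : ℝ => ‖PP g k₀ (((r / nrm z : ℝ) : ℂ) • z)‖) (𝓝[<] (1 : ℝ))
        (𝓝 ‖PP g k₀ ζ‖) := by
      have hc : Continuous fun r : ℝ => ‖PP g k₀ (((r / nrm z : ℝ) : ℂ) • z)‖ := by
        refine (hPPd.continuous.comp ?_).norm
        fun_prop
      have h1 := hc.tendsto 1
      have h2 : (((1 : ℝ) / nrm z : ℝ) : ℂ) • z = ζ := by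
        rw [hζ]; push_cast; rw [one_div]
      simp only [h2] at h1
      exact h1.mono_left nhdsWithin_le_nhds
    set β : ℝ := ‖PP g k₀ ζ‖ / 2 with hβ
    have hβ0 : 0 < β := by have := norm_pos_iff.mpr hPζ; rw [hβ]; positivity
    have hβev : ∀ᶠ r : ℝ in 𝓝[<] (1 : ℝ), β ≤ ‖PP g k₀ (((r / nrm z : ℝ) : ℂ) • z)‖ := by
      have h := hcurve.eventually (lt_mem_nhds (show β < ‖PP g k₀ ζ‖ by
        rw [hβ]; have := norm_pos_iff.mpr hPζ; linarith))
      exact h.mono fun r hr => hr.le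
    -- main lower bound
    have hmain : ∀ L : ℝ, ∀ᶠ r : ℝ in 𝓝[<] (1 : ℝ),
        ψ r ≤ ‖f (((r / nrm z : ℝ) : ℂ) • z)‖ ∧ L ≤ ‖f (((r / nrm z : ℝ) : ℂ) • z)‖ := by
      intro L
      obtain ⟨m₁, hm₁⟩ := exists_nat_ge (2 * (1 + |L|) / β)
      set m₀ := max k₀ m₁ with hm₀
      have hmem : Ico (rad (m₀ + 1)) 1 ∈ 𝓝[<] (1 : ℝ) :=
        mem_of_superset (Ioo_mem_nhdsLT (rad_lt_one (m₀ + 1))) Ioo_subset_Ico_self
      filter_upwards [hmem, hβev] with r hr hrβ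
      obtain ⟨m, hm, hr1, hr2⟩ := exists_between_rad m₀ r hr.1 hr.2
      have hr0 : 0 < r := lt_of_lt_of_le (rad_pos _) hr1
      set x : Fin n → ℂ := ((r / nrm z : ℝ) : ℂ) • z with hx
      have hxn : nrm x = r := by
        rw [hx, nrm_smul, Complex.norm_real, Real.norm_eq_abs, abs_of_pos (by positivity)]
        field_simp
      have hxA : ∀ k, k₀ ≤ k → x ∉ A k := fun k hk => hAs k z (hk₀ k hk) _ (by positivity)
      have hx1 : nrm x ≤ 1 := by rw [hxn]; exact hr.2.le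
      have h1 := (hfb (m + 2) x (by rw [hxn]; exact hr2.le)).1
      have hk₀m : k₀ ≤ m := (le_max_left _ _).trans hm
      have h2 : PP g (m + 2) x
          = PP g k₀ x * (∏ k ∈ Finset.Ico k₀ m, g k x) * g m x * g (m + 1) x := by
        have e1 : PP g (m + 2) x = PP g m x * g m x * g (m + 1) x := by
          simp only [PP, Finset.prod_range_succ]
        have e2 : PP g m x = PP g k₀ x * ∏ k ∈ Finset.Ico k₀ m, g k x :=
          (Finset.prod_range_mul_prod_Ico _ hk₀m).symm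
        rw [e1, e2]
      have h3 : 1 ≤ ‖∏ k ∈ Finset.Ico k₀ m, g k x‖ := by
        rw [norm_prod]
        have h31 : ∀ k ∈ Finset.Ico k₀ m, 1 ≤ ‖g k x‖ := by
          intro k hk
          obtain ⟨hk1, hk2⟩ := Finset.mem_Ico.mp hk
          refine (le_max_left _ _).trans (hg3 k x (hxA k hk1) ?_ hx1)
          rw [hxn]
          exact (strictMono_rad.monotone (by omega)).trans hr1
        have := pow_le_prod (Finset.Ico k₀ m) (fun k => ‖g k x‖) 1 zero_le_one h31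
        simpa using this
      have h4 : K m ≤ ‖g m x‖ := hg3 m x (hxA m hk₀m) (by rw [hxn]; exact hr1) hx1
      have h5 : κ (m + 1) ≤ ‖g (m + 1) x‖ := hg2 (m + 1) x (hxA _ (by omega)) hx1
      have hKm0 : 0 ≤ K m := zero_le_one.trans (le_max_left _ _)
      have h6 : β * 1 * K m * κ (m + 1) ≤ ‖PP g (m + 2) x‖ := by
        rw [h2, norm_mul, norm_mul, norm_mul]
        have := (hκ0 (m + 1)).le
        gcongr
      have h7 : (m + 1) * (1 + S m) ≤ K m * κ (m + 1) := by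
        have h : ((m : ℝ) + 1) * (1 + S m) / κ (m + 1) ≤ K m := le_max_right _ _
        rwa [div_le_iff₀ (hκ0 (m + 1))] at h
      have hmβ : 2 * (1 + |L|) ≤ β * m := by
        have h : 2 * (1 + |L|) / β ≤ m :=
          hm₁.trans (by exact_mod_cast (le_max_right _ _).trans hm)
        rw [div_le_iff₀ hβ0] at h
        linarith
      have h8 : (1 + |L|) * (1 + S m) ≤ ‖f x‖ := by
        calc (1 + |L|) * (1 + S m) ≤ (β * m / 2) * (1 + S m) := by
              have := hS0 m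
              gcongr
              linarith
          _ ≤ 1 / 2 * (β * ((m + 1) * (1 + S m))) := by
              have := hS0 m
              nlinarith
          _ ≤ 1 / 2 * (β * (K m * κ (m + 1))) := by gcongr
          _ = 1 / 2 * (β * 1 * K m * κ (m + 1)) := by ring
          _ ≤ 1 / 2 * ‖PP g (m + 2) x‖ := by gcongr
          _ ≤ ‖f x‖ := h1
      have h9 := hS m r hr0.le hr2.le
      have h10 := hS0 m
      have h11 := abs_nonneg L
      have h12 := le_abs_self L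
      constructor
      · nlinarith
      · nlinarith
    constructor
    · exact (hmain 0).mono fun r hr => hr.1
    · rw [Filter.tendsto_atTop]
      exact fun L => (hmain L).mono fun r hr => hr.2

end Pool.Agent.Y256.RZ
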