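import Pool.Agent.Y256.RZ.Stage

set_option autoImplicit false

namespace Pool.Agent.Y256.RZ

open Set Metric MeasureTheory Filter Topology

variable {n : ℕ}

/-- Bound of a complex derivative by the oscillation. -/
theorem norm_fderiv_le_of_bound {E : Type*} [NormedAddCommGroup E] [NormedSpace ℂ E]
    {u : E → ℂ} {y : E} {r B : ℝ} (hr : 0 < r) (hd : DifferentiableOn ℂ u (ball y r))
    (hB : ∀ w ∈ ball y r, ‖u w‖ ≤ B) : ‖fderiv ℂ u y‖ ≤ 2 * B / r := by
  refine Complex.norm_fderiv_le_div_of_mapsTo_ball hd ?_ hr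
  intro w hw
  rw [mem_closedBall, dist_eq_norm]
  calc ‖u w - u y‖ ≤ ‖u w‖ + ‖u y‖ := norm_sub_le _ _
    _ ≤ B + B := add_le_add (hB w hw) (hB y (mem_ball_self hr))
    _ = 2 * B := by ring

/-- Partial products. -/
noncomputable def PP (g : ℕ → (Fin n → ℂ) → ℂ) (K : ℕ) (z : Fin n → ℂ) : ℂ :=
  ∏ k ∈ Finset.range K, g k z

theorem exists_prod (g : ℕ → (Fin n → ℂ) → ℂ) (a η : ℕ → ℝ)
    (hg : ∀ k, Differentiable ℂ (g k)) (hamono : Monotone a)
    (halim : ∀ x : ℝ, x < 1 → ∃ j, x < a j) (hη : ∀ k, η k ≤ 1 / 8 * (1 / 2) ^ k)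
    (h1 : ∀ k z, nrm z ≤ a k → ‖g k z - 1‖ ≤ η k) :
    ∃ f : (Fin n → ℂ) → ℂ, DifferentiableOn ℂ f {z | nrm z < 1} ∧
      ∀ j z, nrm z ≤ a j → 1 / 2 * ‖PP g j z‖ ≤ ‖f z‖ ∧ ‖f z‖ ≤ 2 * ‖PP g j z‖ := by
  classical
  have hgeo : Summable (fun k : ℕ => (1 / 8 : ℝ) * (1 / 2) ^ k) :=
    (summable_geometric_of_lt_one (by norm_num) (by norm_num)).mul_left _
  have hgeoS : ∑' k : ℕ, (1 / 8 : ℝ) * (1 / 2) ^ k = 1 / 4 := by
    rw [tsum_mul_left, tsum_geometric_of_lt_one (by norm_num) (by norm_num)]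
    norm_num
  -- tails of the product
  have htail : ∀ j K z, nrm z ≤ a j → ‖∏ k ∈ Finset.Ico j K, g k z - 1‖ ≤ 1 / 2 := by
    intro j K z hz
    have e1 : ∏ k ∈ Finset.Ico j K, g k z = ∏ k ∈ Finset.Ico j K, (1 + (g k z - 1)) :=
      Finset.prod_congr rfl fun _ _ => by ring
    have e2 : ∑ k ∈ Finset.Ico j K, ‖g k z - 1‖ ≤ 1 / 4 := by
      calc ∑ k ∈ Finset.Ico j K, ‖g k z - 1‖ ≤ ∑ k ∈ Finset.Ico j K, (1 / 8 : ℝ) * (1 / 2) ^ k := by
            refine Finset.sum_le_sum fun k hk => ?_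
            exact (h1 k z (hz.trans (hamono (Finset.mem_Ico.mp hk).1))).trans (hη k)
        _ ≤ ∑' k : ℕ, (1 / 8 : ℝ) * (1 / 2) ^ k :=
            hgeo.sum_le_tsum _ fun _ _ => by positivity
        _ = 1 / 4 := hgeoS
    have e3 : 0 ≤ ∑ k ∈ Finset.Ico j K, ‖g k z - 1‖ := Finset.sum_nonneg fun _ _ => norm_nonneg _
    have e4 := Finset.norm_prod_one_add_sub_one_le (Finset.Ico j K) (fun k => g k z - 1)
    have e5 := Real.abs_exp_sub_one_le (x := ∑ k ∈ Finset.Ico j K, ‖g k z - 1‖)
      (by rw [abs_of_nonneg e3]; linarith)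
    rw [abs_of_nonneg e3] at e5
    have e6 := (le_abs_self _).trans e5
    rw [e1]
    linarith
  have hsplit : ∀ j K z, j ≤ K → PP g K z = PP g j z * ∏ k ∈ Finset.Ico j K, g k z := by
    intro j K z hjK
    exact (Finset.prod_range_mul_prod_Ico _ hjK).symm
  have hupper : ∀ j K z, j ≤ K → nrm z ≤ a j → ‖PP g K z‖ ≤ 3 / 2 * ‖PP g j z‖ := by
    intro j K z hjK hz
    rw [hsplit j K z hjK, norm_mul, mul_comm]
    have h2 := htail j K z hz
    have h3 : ‖∏ k ∈ Finset.Ico j K, g k z‖ ≤ 3 / 2 := by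
      calc ‖∏ k ∈ Finset.Ico j K, g k z‖ = ‖(∏ k ∈ Finset.Ico j K, g k z - 1) + 1‖ := by
            congr 1; ring
        _ ≤ 1 / 2 + 1 := (norm_add_le _ _).trans (by rw [norm_one]; linarith)
        _ = 3 / 2 := by norm_num
    gcongr
  have hlower : ∀ j K z, j ≤ K → nrm z ≤ a j → 1 / 2 * ‖PP g j z‖ ≤ ‖PP g K z‖ := by
    intro j K z hjK hz
    rw [hsplit j K z hjK, norm_mul, mul_comm]
    have h2 := htail j K z hz
    have h3 : 1 / 2 ≤ ‖∏ k ∈ Finset.Ico j K, g k z‖ := by
      have : ‖(1 : ℂ)‖ ≤ ‖∏ k ∈ Finset.Ico j K, g k z‖ + ‖∏ k ∈ Finset.Ico j K, g k z - 1‖ := by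
        calc ‖(1 : ℂ)‖ = ‖(∏ k ∈ Finset.Ico j K, g k z) - (∏ k ∈ Finset.Ico j K, g k z - 1)‖ := by
              congr 1; ring
          _ ≤ _ := norm_sub_le _ _
      rw [norm_one] at this
      linarith
    gcongr
  -- increments
  let u : ℕ → (Fin n → ℂ) → ℂ := fun K z => PP g (K + 1) z - PP g K z
  have hu : ∀ j K z, j ≤ K → nrm z ≤ a j →
      ‖u K z‖ ≤ 3 / 2 * ‖PP g j z‖ * (1 / 8 * (1 / 2) ^ K) := by
    intro j K z hjK hz
    have e1 : u K z = PP g K z * (g K z - 1) := by
      simp only [u, PP, Finset.prod_range_succ]; ring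
    rw [e1, norm_mul]
    have e2 := (h1 K z (hz.trans (hamono hjK))).trans (hη K)
    exact mul_le_mul (hupper j K z hjK hz) e2 (norm_nonneg _) (by positivity)
  have hsum : ∀ z, nrm z < 1 → Summable (fun K => u K z) := by
    intro z hz
    obtain ⟨j, hj⟩ := halim _ hz
    rw [← summable_nat_add_iff j]
    refine Summable.of_norm_bounded
      (g := fun K => 3 / 2 * ‖PP g j z‖ * (1 / 8 * (1 / 2) ^ (K + j))) ?_ ?_
    · exact ((summable_nat_add_iff j).mpr hgeo).mul_left _
    · intro K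
      exact hu j (K + j) z (Nat.le_add_left _ _) hj.le
  let f : (Fin n → ℂ) → ℂ := fun z => 1 + ∑' K, u K z
  have hpartial : ∀ K z, ∑ i ∈ Finset.range K, u i z = PP g K z - 1 := by
    intro K z
    have := Finset.sum_range_sub (fun i => PP g i z) K
    simpa [u, PP] using this
  have hlim : ∀ z, nrm z < 1 → Tendsto (fun K => PP g K z) atTop (𝓝 (f z)) := by
    intro z hz
    have h2 := (hsum z hz).hasSum.tendsto_sum_nat
    have h3 := h2.const_add 1
    refine h3.congr fun K => ?_
    rw [hpartial]; ring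
  have hPPd : ∀ K, Differentiable ℂ (PP g K) := fun K =>
    differentiable_prod _ _ fun k _ => hg k
  refine ⟨f, ?_, ?_⟩
  · intro z₀ hz₀
    have hz₀' : nrm z₀ < 1 := hz₀
    obtain ⟨j, hj⟩ := halim _ hz₀'
    -- restrict to j with a j < 1 is not needed: use min
    let V : Set (Fin n → ℂ) := {z | nrm z < min (a j) 1}
    have hVo : IsOpen V := isOpen_lt continuous_nrm continuous_const
    have hz₀V : z₀ ∈ V := lt_min hj hz₀'
    have hcomp : IsCompact {z : Fin n → ℂ | nrm z ≤ 1} := by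
      refine Metric.isCompact_of_isClosed_isBounded (isClosed_le continuous_nrm continuous_const) ?_
      refine (Metric.isBounded_closedBall (x := (0 : Fin n → ℂ)) (r := 1)).subset ?_
      intro z hz
      rw [mem_closedBall_zero_iff, pi_norm_le_iff_of_nonneg zero_le_one]
      intro i
      have h2 : ‖z i‖ ^ 2 ≤ ∑ i, ‖z i‖ ^ 2 :=
        Finset.single_le_sum (f := fun i => ‖z i‖ ^ 2) (fun _ _ => by positivity)
          (Finset.mem_univ i)
      have h3 : ‖z i‖ ≤ nrm z := Real.le_sqrt_of_sq_le h2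
      exact h3.trans hz
    obtain ⟨B, hB⟩ := hcomp.exists_bound_of_continuousOn (hPPd j).continuous.continuousOn
    obtain ⟨r, hr, hrV⟩ := Metric.isOpen_iff.mp hVo z₀ hz₀V
    have hB0 : 0 ≤ B := (norm_nonneg _).trans (hB z₀ hz₀'.le)
    set ρ := r / 2 with hρ
    have hρ0 : 0 < ρ := by positivity
    have hball : ∀ y ∈ ball z₀ ρ, ball y ρ ⊆ V := by
      intro y hy w hw
      apply hrV
      rw [mem_ball] at *
      calc dist w z₀ ≤ dist w y + dist y z₀ := dist_triangle _ _ _
        _ < ρ + ρ := add_lt_add hw hy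
        _ = r := by rw [hρ]; ring
    have hud : ∀ K, Differentiable ℂ (u K) := fun K => (hPPd (K + 1)).sub (hPPd K)
    have hubound : ∀ K, ∀ w ∈ V, ‖u (K + j) w‖ ≤ 3 / 2 * B * (1 / 8 * (1 / 2) ^ (K + j)) := by
      intro K w hw
      have hw1 : nrm w < a j := hw.trans_le (min_le_left _ _)
      have hw2 : nrm w < 1 := hw.trans_le (min_le_right _ _)
      refine (hu j (K + j) w (Nat.le_add_left _ _) hw1.le).trans ?_
      have := hB w hw2.le
      gcongr
    have hder : HasFDerivAt (fun y => ∑' K, u (K + j) y) (∑' K, fderiv ℂ (u (K + j)) z₀) z₀ := by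
      refine hasFDerivAt_tsum_of_isPreconnected (s := ball z₀ ρ) (x₀ := z₀)
        (u := fun K => 2 * (3 / 2 * B * (1 / 8 * (1 / 2) ^ (K + j))) / ρ)
        (f' := fun K y => fderiv ℂ (u (K + j)) y) ?_ isOpen_ball
        (convex_ball _ _).isPreconnected ?_ ?_ (mem_ball_self hρ0) ?_ (mem_ball_self hρ0)
      · have h2 := ((summable_nat_add_iff j).mpr hgeo).mul_left (2 * (3 / 2 * B) / ρ)
        refine h2.congr fun K => ?_
        ring
      · intro K y _
        exact (hud (K + j) y).hasFDerivAt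
      · intro K y hy
        exact norm_fderiv_le_of_bound hρ0 (hud (K + j)).differentiableOn
          fun w hw => hubound K w (hball y hy hw)
      · exact (summable_nat_add_iff j).mpr (hsum z₀ hz₀')
    have hfeq : f =ᶠ[𝓝 z₀] fun y => PP g j y + ∑' K, u (K + j) y := by
      filter_upwards [hVo.mem_nhds hz₀V] with y hy
      have hy2 : nrm y < 1 := lt_of_lt_of_le hy (min_le_right _ _)
      have h2 := (hsum y hy2).sum_add_tsum_nat_add j
      simp only [f]
      rw [← h2, hpartial]
      ring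
    have h3 : DifferentiableAt ℂ (fun y => PP g j y + ∑' K, u (K + j) y) z₀ :=
      ((hPPd j) z₀).add hder.differentiableAt
    exact (h3.congr_of_eventuallyEq hfeq).differentiableWithinAt
  · intro j z hz
    by_cases hz1 : nrm z < 1
    · have h2 := (hlim z hz1).norm
      constructor
      · refine ge_of_tendsto h2 ?_
        filter_upwards [eventually_ge_atTop j] with K hK
        exact hlower j K z hK hz
      · refine le_of_tendsto h2 ?_
        filter_upwards [eventually_ge_atTop j] with K hK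
        refine (hupper j K z hK hz).trans ?_
        have := norm_nonneg (PP g j z)
        linarith
    · -- nrm z ≤ a j but nrm z ≥ 1: the same bounds hold with the same proof
      have hsum' : Summable (fun K => u K z) := by
        rw [← summable_nat_add_iff j]
        refine Summable.of_norm_bounded
          (g := fun K => 3 / 2 * ‖PP g j z‖ * (1 / 8 * (1 / 2) ^ (K + j))) ?_ ?_
        · exact ((summable_nat_add_iff j).mpr hgeo).mul_left _
        · intro K
          exact hu j (K + j) z (Nat.le_add_left _ _) hz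
      have hlim' : Tendsto (fun K => PP g K z) atTop (𝓝 (f z)) := by
        have h2 := hsum'.hasSum.tendsto_sum_nat
        have h3 := h2.const_add 1
        refine h3.congr fun K => ?_
        rw [hpartial]; ring
      have h2 := hlim'.norm
      constructor
      · refine ge_of_tendsto h2 ?_
        filter_upwards [eventually_ge_atTop j] with K hK
        exact hlower j K z hK hz
      · refine le_of_tendsto h2 ?_
        filter_upwards [eventually_ge_atTop j] with K hK
        refine (hupper j K z hK hz).trans ?_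
        have := norm_nonneg (PP g j z)
        linarith

end Pool.Agent.Y256.RZ
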