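import Mathlib

set_option autoImplicit false

namespace Pool.Agent.Y256.RZ

open Set Metric

/-- Runge approximation of a simple pole on the negative axis: the pole is pushed to infinity
along the negative real axis. -/
theorem runge (c t ε : ℝ) (hc : 0 < c) (ht : 0 < t) (hε : 0 < ε) :
    ∃ p : Polynomial ℂ, ∀ v : ℂ, ‖v‖ ≤ 1 → (∀ s : ℝ, t ≤ s → c * s ≤ ‖v + (s : ℂ)‖) →
      ‖p.eval v - (v + (t : ℂ))⁻¹‖ ≤ ε := by
  classical
  let K : Set ℂ := {v | ‖v‖ ≤ 1 ∧ ∀ s : ℝ, t ≤ s → c * s ≤ ‖v + (s : ℂ)‖}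
  have hKc : IsClosed K := by
    have h1 : IsClosed {v : ℂ | ‖v‖ ≤ 1} := isClosed_le continuous_norm continuous_const
    have h2 : IsClosed {v : ℂ | ∀ s : ℝ, t ≤ s → c * s ≤ ‖v + (s : ℂ)‖} := by
      have h3 : {v : ℂ | ∀ s : ℝ, t ≤ s → c * s ≤ ‖v + (s : ℂ)‖}
          = ⋂ s : ℝ, ⋂ _ : t ≤ s, {v : ℂ | c * s ≤ ‖v + (s : ℂ)‖} := by
        ext v; simp
      rw [h3]
      refine isClosed_iInter fun s => isClosed_iInter fun _ => ?_
      exact isClosed_le continuous_const (by fun_prop)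
    exact h1.inter h2
  have hKb : Bornology.IsBounded K := by
    refine (Metric.isBounded_closedBall (x := (0 : ℂ)) (r := 1)).subset ?_
    intro v hv
    simpa using hv.1
  have hKcomp : IsCompact K := Metric.isCompact_of_isClosed_isBounded hKc hKb
  have : CompactSpace K := isCompact_iff_compactSpace.mp hKcomp
  let X : C(K, ℂ) := ⟨Subtype.val, continuous_subtype_val⟩
  let A : Subalgebra ℂ C(K, ℂ) := (Algebra.adjoin ℂ {X}).topologicalClosure
  have hAcl : IsClosed (A : Set C(K, ℂ)) := Subalgebra.isClosed_topologicalClosure _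
  have hXA : X ∈ A := Subalgebra.le_topologicalClosure _ (Algebra.subset_adjoin rfl)
  let x : A := ⟨X, hXA⟩
  have hspec : spectrum ℂ (x : C(K, ℂ)) = K := by
    have := ContinuousMap.spectrum_eq_range (X : C(K, ℂ))
    rw [show ((x : C(K, ℂ))) = X from rfl, this]
    ext v
    simp [X]
  have hnot : (-(t : ℂ)) ∉ spectrum ℂ x := by
    intro hmem
    have hb := Subalgebra.spectrum_isBounded_connectedComponentIn A (hS := hAcl) x hmem
    rw [hspec] at hb
    let R : Set ℂ := (fun s : ℝ => (-(s : ℂ))) '' Ici t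
    have hRpre : IsPreconnected R := isPreconnected_Ici.image _ (by fun_prop)
    have hRsub : R ⊆ Kᶜ := by
      rintro _ ⟨s, hs, rfl⟩ hK
      have := hK.2 s hs
      simp at this
      have hs' : t ≤ s := hs
      nlinarith [mul_pos hc (lt_of_lt_of_le ht hs')]
    have hRt : (-(t : ℂ)) ∈ R := ⟨t, self_mem_Ici, rfl⟩
    have hsub := hRpre.subset_connectedComponentIn hRt hRsub
    have hRb := hb.subset hsub
    obtain ⟨M, hM⟩ := hRb.exists_norm_le
    have h1 := hM (-((max t (M + 1) : ℝ) : ℂ)) ⟨max t (M + 1), mem_Ici.2 (le_max_left _ _), rfl⟩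
    rw [norm_neg, Complex.norm_real, Real.norm_eq_abs] at h1
    have h2 : M + 1 ≤ |max t (M + 1)| := (le_max_right _ _).trans (le_abs_self _)
    linarith
  rw [spectrum.notMem_iff] at hnot
  obtain ⟨u, hu⟩ := hnot
  -- inverse element
  let w : A := ((u⁻¹ : (A)ˣ) : A)
  have hw : (algebraMap ℂ A (-(t : ℂ)) - x) * w = 1 := by
    rw [← hu]; simp [w]
  have hwv : ∀ v : K, ((w : C(K, ℂ)) v) = -((v : ℂ) + (t : ℂ))⁻¹ := by
    intro v
    have h1 : (((algebraMap ℂ A (-(t : ℂ)) - x) * w : A) : C(K, ℂ)) v = 1 := by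
      rw [hw]; rfl
    have h2 : (-(t : ℂ) - (v : ℂ)) * ((w : C(K, ℂ)) v) = 1 := by
      have : (((algebraMap ℂ A (-(t : ℂ)) - x) * w : A) : C(K, ℂ)) v
          = (-(t : ℂ) - (v : ℂ)) * ((w : C(K, ℂ)) v) := rfl
      rw [← this]; exact h1
    have hne : ((v : ℂ) + (t : ℂ)) ≠ 0 := by
      intro h0
      rw [show (-(t : ℂ) - (v : ℂ)) = -((v : ℂ) + (t : ℂ)) by ring, h0] at h2
      simp at h2
    field_simp
    linear_combination (-1 : ℂ) * h2
  have hwA : (w : C(K, ℂ)) ∈ closure ((Algebra.adjoin ℂ {X} : Subalgebra ℂ C(K, ℂ)) : Set C(K, ℂ)) := by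
    rw [← Subalgebra.topologicalClosure_coe]
    exact w.2
  obtain ⟨b, hb, hdist⟩ := Metric.mem_closure_iff.mp hwA ε hε
  rw [SetLike.mem_coe, Algebra.adjoin_singleton_eq_range_aeval] at hb
  obtain ⟨p, hp⟩ := hb
  refine ⟨-p, fun v hv1 hv2 => ?_⟩
  let v' : K := ⟨v, hv1, hv2⟩
  have h3 : dist ((w : C(K, ℂ)) v') (b v') < ε :=
    lt_of_le_of_lt (ContinuousMap.dist_apply_le_dist v') hdist
  have h4 : b v' = p.eval v := by
    rw [← hp]
    have := Polynomial.aeval_continuousMap_apply p X v'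
    exact this
  rw [hwv v', h4, dist_eq_norm] at h3
  have h5 : ‖(-p).eval v - (v + (t : ℂ))⁻¹‖ = ‖-(v + (t : ℂ))⁻¹ - p.eval v‖ := by
    rw [Polynomial.eval_neg]
    congr 1
    ring
  rw [h5]
  exact h3.le

end Pool.Agent.Y256.RZ
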