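import Pool.Agent.Y256.RZ.Runge

set_option autoImplicit false

namespace Pool.Agent.Y256.RZ

open Set Metric

/-- Complex numbers that stay away from the negative real axis in a scale invariant sense. -/
def Lam (c : ℝ) : Set ℂ := {v | ∀ s : ℝ, 0 ≤ s → c * s ≤ ‖v + (s : ℂ)‖}

theorem isClosed_Lam (c : ℝ) : IsClosed (Lam c) := by
  have h3 : Lam c = ⋂ s : ℝ, ⋂ _ : 0 ≤ s, {v : ℂ | c * s ≤ ‖v + (s : ℂ)‖} := by
    ext v; simp [Lam]
  rw [h3]
  refine isClosed_iInter fun s => isClosed_iInter fun _ => ?_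
  exact isClosed_le continuous_const (by fun_prop)

theorem Lam_smul {c : ℝ} {v : ℂ} (hv : v ∈ Lam c) {r : ℝ} (hr : 0 < r) :
    (r : ℂ) * v ∈ Lam c := by
  intro s hs
  have h := hv (s / r) (by positivity)
  have hr' : (r : ℂ) ≠ 0 := by exact_mod_cast hr.ne'
  have h1 : (r : ℂ) * v + (s : ℂ) = (r : ℂ) * (v + ((s / r : ℝ) : ℂ)) := by
    push_cast
    field_simp
  rw [h1, norm_mul, Complex.norm_real, Real.norm_eq_abs, abs_of_pos hr]
  calc c * s = r * (c * (s / r)) := by field_simp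
    _ ≤ _ := by gcongr

/-- The transition function: close to `1` near `0`, small away from `0`, bounded in between,
all this off a thin sector around the negative axis. -/
theorem exists_Q (c η t : ℝ) (hc : 0 < c) (hc2 : c ≤ 1 / 2) (hη : 0 < η) (hη1 : η ≤ 1)
    (ht : 0 < t) :
    ∃ Q : Polynomial ℂ,
      (∀ v : ℂ, ‖v‖ ≤ η * t / 4 → ‖v‖ ≤ 1 → ‖Q.eval v - 1‖ ≤ η) ∧
      (∀ v ∈ Lam c, ‖v‖ ≤ 1 → ‖Q.eval v‖ ≤ 1 / c + 1) ∧
      (∀ v ∈ Lam c, 4 * t / η ≤ ‖v‖ → ‖v‖ ≤ 1 → ‖Q.eval v‖ ≤ η) := by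
  obtain ⟨p, hp⟩ := runge c t (η / (2 * t)) hc ht (by positivity)
  have key : ∀ v : ℂ, ‖v‖ ≤ 1 → (∀ s : ℝ, t ≤ s → c * s ≤ ‖v + (s : ℂ)‖) →
      ‖(Polynomial.C (t : ℂ) * p).eval v - (t : ℂ) * (v + (t : ℂ))⁻¹‖ ≤ η / 2 := by
    intro v hv1 hv2
    have h := hp v hv1 hv2
    rw [Polynomial.eval_mul, Polynomial.eval_C, ← mul_sub, norm_mul, Complex.norm_real,
      Real.norm_eq_abs, abs_of_pos ht]
    calc t * ‖p.eval v - (v + (t : ℂ))⁻¹‖ ≤ t * (η / (2 * t)) := by gcongr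
      _ = η / 2 := by field_simp
  have hnormt : ‖(t : ℂ)‖ = t := by rw [Complex.norm_real, Real.norm_eq_abs, abs_of_pos ht]
  refine ⟨Polynomial.C (t : ℂ) * p, ?_, ?_, ?_⟩
  · intro v hv hv1
    have hvt : ‖v‖ ≤ t / 4 := by nlinarith
    have hlow : ∀ s : ℝ, t ≤ s → 3 / 4 * s ≤ ‖v + (s : ℂ)‖ := by
      intro s hs
      have h1 : ‖(s : ℂ)‖ = s := by
        rw [Complex.norm_real, Real.norm_eq_abs, abs_of_pos (lt_of_lt_of_le ht hs)]
      have h2 : ‖(s : ℂ)‖ ≤ ‖v + (s : ℂ)‖ + ‖v‖ := by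
        calc ‖(s : ℂ)‖ = ‖(v + (s : ℂ)) - v‖ := by congr 1; ring
          _ ≤ _ := norm_sub_le _ _
      rw [h1] at h2
      linarith
    have h := key v hv1 (fun s hs => by
      have := hlow s hs
      have hs0 : 0 < s := lt_of_lt_of_le ht hs
      nlinarith)
    have hne : v + (t : ℂ) ≠ 0 := by
      intro h0
      have := hlow t le_rfl
      rw [h0, norm_zero] at this
      linarith
    have h5 : ‖(t : ℂ) * (v + (t : ℂ))⁻¹ - 1‖ ≤ η / 3 := by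
      have : (t : ℂ) * (v + (t : ℂ))⁻¹ - 1 = -v * (v + (t : ℂ))⁻¹ := by
        field_simp
        ring
      rw [this, norm_mul, norm_neg, norm_inv]
      have h6 := hlow t le_rfl
      rw [← div_eq_mul_inv, div_le_iff₀ (by linarith)]
      calc ‖v‖ ≤ η * t / 4 := hv
        _ = η / 3 * (3 / 4 * t) := by ring
        _ ≤ _ := by gcongr
    calc ‖(Polynomial.C (t : ℂ) * p).eval v - 1‖
        = ‖((Polynomial.C (t : ℂ) * p).eval v - (t : ℂ) * (v + (t : ℂ))⁻¹)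
          + ((t : ℂ) * (v + (t : ℂ))⁻¹ - 1)‖ := by congr 1; ring
      _ ≤ η / 2 + η / 3 := (norm_add_le _ _).trans (add_le_add h h5)
      _ ≤ η := by linarith
  · intro v hv hv1
    have h := key v hv1 (fun s hs => hv s (ht.le.trans hs))
    have h5 : ‖(t : ℂ) * (v + (t : ℂ))⁻¹‖ ≤ 1 / c := by
      rw [norm_mul, norm_inv, hnormt]
      have h6 := hv t ht.le
      rw [← div_eq_mul_inv, div_le_div_iff₀ (lt_of_lt_of_le (by positivity) h6) hc]
      linarith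
    calc ‖(Polynomial.C (t : ℂ) * p).eval v‖
        = ‖((Polynomial.C (t : ℂ) * p).eval v - (t : ℂ) * (v + (t : ℂ))⁻¹)
          + (t : ℂ) * (v + (t : ℂ))⁻¹‖ := by congr 1; ring
      _ ≤ η / 2 + 1 / c := (norm_add_le _ _).trans (add_le_add h h5)
      _ ≤ 1 / c + 1 := by linarith
  · intro v hv hv4 hv1
    have h := key v hv1 (fun s hs => hv s (ht.le.trans hs))
    have h5 : ‖(t : ℂ) * (v + (t : ℂ))⁻¹‖ ≤ η / 3 := by
      rw [norm_mul, norm_inv, hnormt]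
      have h7 : 4 * t ≤ ‖v‖ * η := by rwa [div_le_iff₀ hη] at hv4
      have h8 : ‖v‖ ≤ ‖v + (t : ℂ)‖ + t := by
        calc ‖v‖ = ‖(v + (t : ℂ)) - (t : ℂ)‖ := by congr 1; ring
          _ ≤ ‖v + (t : ℂ)‖ + ‖(t : ℂ)‖ := norm_sub_le _ _
          _ = _ := by rw [hnormt]
      have h9 : 4 * t ≤ ‖v‖ := by nlinarith [norm_nonneg v]
      have h10 : 3 / 4 * ‖v‖ ≤ ‖v + (t : ℂ)‖ := by linarith
      rw [← div_eq_mul_inv, div_le_iff₀ (by linarith)]
      calc t ≤ η / 3 * (3 / 4 * ‖v‖) := by linarith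
        _ ≤ _ := by gcongr
    calc ‖(Polynomial.C (t : ℂ) * p).eval v‖
        = ‖((Polynomial.C (t : ℂ) * p).eval v - (t : ℂ) * (v + (t : ℂ))⁻¹)
          + (t : ℂ) * (v + (t : ℂ))⁻¹‖ := by congr 1; ring
      _ ≤ η / 2 + η / 3 := (norm_add_le _ _).trans (add_le_add h h5)
      _ ≤ η := by linarith

/-- For every `N` there is an opening `c` such that among the rotations of a number by the
`N`-th roots of unity at most one is outside `Lam c`. -/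
theorem exists_c (N : ℕ) (hN : 0 < N) : ∃ c : ℝ, 0 < c ∧ c ≤ 1 / 2 ∧
    ∀ u ω : ℂ, ω ^ N = 1 → ω ≠ 1 → u ∉ Lam c → ω * u ∈ Lam c := by
  classical
  -- finite set of nontrivial roots of unity
  let S : Finset ℂ := (Polynomial.nthRootsFinset N (1 : ℂ)).erase 1
  obtain ⟨m, hm, hmS⟩ : ∃ m : ℝ, 0 < m ∧ ∀ ω ∈ S, m ≤ ‖ω - 1‖ := by
    by_cases hS : S.Nonempty
    · refine ⟨S.inf' hS (fun ω => ‖ω - 1‖), ?_, fun ω hω => Finset.inf'_le _ hω⟩
      rw [Finset.lt_inf'_iff]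
      intro ω hω
      have : ω ≠ 1 := (Finset.mem_erase.mp hω).1
      exact norm_pos_iff.mpr (sub_ne_zero.mpr this)
    · rw [Finset.not_nonempty_iff_eq_empty] at hS
      exact ⟨1, one_pos, by simp [hS]⟩
  refine ⟨min (1 / 2) (m / 9), by positivity, min_le_left _ _, ?_⟩
  set c := min (1 / 2 : ℝ) (m / 9) with hcdef
  have hc0 : 0 < c := by rw [hcdef]; positivity
  have hc1 : c ≤ 1 / 2 := min_le_left _ _
  have hc2 : c ≤ m / 9 := min_le_right _ _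
  intro u ω hω hω1 hu s' hs'
  by_contra hcon
  push Not at hcon
  rw [Lam, mem_ofPred_eq] at hu
  push Not at hu
  obtain ⟨s, hs, hus⟩ := hu
  have hωn : ‖ω‖ = 1 := by
    have := congrArg norm hω
    rw [norm_pow, norm_one] at this
    exact (pow_eq_one_iff_of_nonneg (norm_nonneg _) hN.ne').mp this
  have hmem : ω ∈ S := by
    refine Finset.mem_erase.mpr ⟨hω1, ?_⟩
    rw [Polynomial.mem_nthRootsFinset hN]
    exact hω
  have hmω := hmS ω hmem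
  have hs0 : 0 < s := by
    by_contra h
    have : s = 0 := le_antisymm (not_lt.mp h) hs
    subst this
    simp at hus
    exact absurd hus (not_lt.mpr (norm_nonneg _))
  have e1 : ‖(s : ℂ)‖ = s := by rw [Complex.norm_real, Real.norm_eq_abs, abs_of_nonneg hs]
  have e2 : ‖(s' : ℂ)‖ = s' := by rw [Complex.norm_real, Real.norm_eq_abs, abs_of_nonneg hs']
  have a1 : ‖u‖ ≤ c * s + s := by
    calc ‖u‖ = ‖(u + (s : ℂ)) - (s : ℂ)‖ := by congr 1; ring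
      _ ≤ ‖u + (s : ℂ)‖ + ‖(s : ℂ)‖ := norm_sub_le _ _
      _ ≤ c * s + s := by rw [e1]; linarith
  have a2 : s ≤ c * s + ‖u‖ := by
    calc s = ‖(u + (s : ℂ)) - u‖ := by rw [← e1]; congr 1; rw [e1]; ring
      _ ≤ ‖u + (s : ℂ)‖ + ‖u‖ := norm_sub_le _ _
      _ ≤ _ := by linarith
  have a3 : ‖u‖ ≤ c * s' + s' := by
    calc ‖u‖ = ‖ω * u‖ := by rw [norm_mul, hωn, one_mul]
      _ = ‖(ω * u + (s' : ℂ)) - (s' : ℂ)‖ := by congr 1; ring
      _ ≤ ‖ω * u + (s' : ℂ)‖ + ‖(s' : ℂ)‖ := norm_sub_le _ _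
      _ ≤ c * s' + s' := by rw [e2]; linarith
  have a4 : s' ≤ c * s' + ‖u‖ := by
    calc s' = ‖(ω * u + (s' : ℂ)) - ω * u‖ := by rw [← e2]; congr 1; rw [e2]; ring
      _ ≤ ‖ω * u + (s' : ℂ)‖ + ‖ω * u‖ := norm_sub_le _ _
      _ ≤ _ := by rw [norm_mul, hωn, one_mul]; linarith
  have b1 : |s' - s| ≤ c * s' + c * s := by
    rw [abs_le]; constructor <;> linarith
  have b2 : ‖ω - 1‖ * s ≤ 2 * (c * s + c * s') := by
    calc ‖ω - 1‖ * s = ‖(ω - 1) * (s : ℂ)‖ := by rw [norm_mul, e1]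
      _ = ‖ω * (u + (s : ℂ)) - (ω * u + (s' : ℂ)) + ((s' - s : ℝ) : ℂ)‖ := by
          congr 1; push_cast; ring
      _ ≤ ‖ω * (u + (s : ℂ)) - (ω * u + (s' : ℂ))‖ + ‖((s' - s : ℝ) : ℂ)‖ := norm_add_le _ _
      _ ≤ (‖ω * (u + (s : ℂ))‖ + ‖ω * u + (s' : ℂ)‖) + |s' - s| := by
          rw [Complex.norm_real, Real.norm_eq_abs]
          gcongr
          exact norm_sub_le _ _
      _ ≤ _ := by rw [norm_mul, hωn, one_mul]; linarith
  have b3 : s' ≤ 3 * s := by nlinarith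
  have b4 : ‖ω - 1‖ * s ≤ 8 * c * s := by nlinarith
  have b5 : ‖ω - 1‖ ≤ 8 * c := le_of_mul_le_mul_right b4 hs0
  linarith

end Pool.Agent.Y256.RZ
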