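import Pool.Agent.Y256.RZ.Geom

set_option autoImplicit false

namespace Pool.Agent.Y256.RZ

open Set Metric MeasureTheory

variable {n : ℕ}

theorem differentiable_prod {ι E : Type*} [NormedAddCommGroup E] [NormedSpace ℂ E]
    (T : Finset ι) (f : ι → E → ℂ) (hf : ∀ i ∈ T, Differentiable ℂ (f i)) :
    Differentiable ℂ fun z => ∏ i ∈ T, f i z := by
  classical
  induction T using Finset.induction_on with
  | empty => simp
  | insert i T hi ih =>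
    simp only [Finset.prod_insert hi]
    exact (hf i (Finset.mem_insert_self _ _)).mul
      (ih fun j hj => hf j (Finset.mem_insert_of_mem hj))

theorem prod_le_pow {ι : Type*} (T : Finset ι) (f : ι → ℝ) (C : ℝ) (h0 : ∀ i ∈ T, 0 ≤ f i)
    (h : ∀ i ∈ T, f i ≤ C) : ∏ i ∈ T, f i ≤ C ^ T.card :=
  (Finset.prod_le_prod h0 h).trans (by simp)

/-- Union of the exceptional cones over a finite set of directions. -/
def BadU (T : Finset (Fin n → ℂ)) (M : ℕ) (c : ℝ) : Set (Fin n → ℂ) := ⋃ ξ ∈ T, Bad ξ M c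

theorem measurableSet_BadU (T : Finset (Fin n → ℂ)) (M : ℕ) (c : ℝ) :
    MeasurableSet (BadU T M c) :=
  Finset.measurableSet_biUnion _ fun ξ _ => measurableSet_Bad ξ M c

theorem notMem_BadU_iff {T : Finset (Fin n → ℂ)} {M : ℕ} {c : ℝ} {z : Fin n → ℂ} :
    z ∉ BadU T M c ↔ ∀ ξ ∈ T, pr ξ z ^ M ∈ Lam c := by
  simp [BadU, Bad]

theorem notMem_BadU_smul {T : Finset (Fin n → ℂ)} {M : ℕ} {c : ℝ} {z : Fin n → ℂ}
    (hz : z ∉ BadU T M c) {r : ℝ} (hr : 0 < r) : (r : ℂ) • z ∉ BadU T M c := by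
  rw [BadU] at hz ⊢
  simp only [mem_iUnion, not_exists] at hz ⊢
  exact fun ξ hξ => notMem_Bad_smul (hz ξ hξ) hr

theorem measure_BadU_le (N : ℕ) (hN : 0 < N) (c : ℝ)
    (hc : ∀ u ω : ℂ, ω ^ N = 1 → ω ≠ 1 → u ∉ Lam c → ω * u ∈ Lam c)
    (T : Finset (Fin n → ℂ)) (M : ℕ) (hM : 0 < M) (ε : ℝ) (hε : (T.card : ℝ) ≤ ε * N) (R : ℝ) :
    volume (BadU T M c ∩ {z : Fin n → ℂ | nrm z ≤ R})
      ≤ ENNReal.ofReal ε * volume {z : Fin n → ℂ | nrm z ≤ R} := by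
  classical
  set D : Set (Fin n → ℂ) := {z | nrm z ≤ R} with hD
  have hN' : (N : ENNReal) ≠ 0 := by exact_mod_cast hN.ne'
  have hNt : (N : ENNReal) ≠ ⊤ := ENNReal.natCast_ne_top N
  have h1 : ∀ ξ ∈ T, volume (Bad ξ M c ∩ D) ≤ volume D / N := by
    intro ξ _
    rw [ENNReal.le_div_iff_mul_le (Or.inl hN') (Or.inl hNt), mul_comm]
    exact measure_Bad_le N hN c hc ξ M hM R
  calc volume (BadU T M c ∩ D) = volume (⋃ ξ ∈ T, (Bad ξ M c ∩ D)) := by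
        rw [BadU, iUnion₂_inter]
    _ ≤ ∑ ξ ∈ T, volume (Bad ξ M c ∩ D) := measure_biUnion_finset_le _ _
    _ ≤ ∑ ξ ∈ T, volume D / N := Finset.sum_le_sum h1
    _ = (T.card : ENNReal) / N * volume D := by
        rw [Finset.sum_const, nsmul_eq_mul, ENNReal.div_eq_inv_mul, ENNReal.div_eq_inv_mul]
        ring
    _ ≤ ENNReal.ofReal ε * volume D := by
        gcongr
        have hNr : (0 : ℝ) < N := by exact_mod_cast hN
        have h2 : ((T.card : ℝ) / N) ≤ ε := by rw [div_le_iff₀ hNr]; exact hε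
        have h3 : (T.card : ENNReal) / N = ENNReal.ofReal ((T.card : ℝ) / N) := by
          rw [ENNReal.ofReal_div_of_pos hNr, ENNReal.ofReal_natCast, ENNReal.ofReal_natCast]
        rw [h3]
        exact ENNReal.ofReal_le_ofReal h2

/-- One stage of the construction. -/
theorem stage (n : ℕ) (a b : ℝ) (ha : 0 < a) (hab : a < b) (hb : b < 1) (ε : ℝ) (hε : 0 < ε) :
    ∃ C : ℝ, 1 ≤ C ∧ ∀ η : ℝ, 0 < η → η ≤ 1 → ∃ (g : (Fin n → ℂ) → ℂ) (A : Set (Fin n → ℂ)),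
      Differentiable ℂ g ∧ MeasurableSet A ∧
      (∀ z, nrm z ≤ a → ‖g z - 1‖ ≤ η) ∧
      (∀ z, z ∉ A → nrm z ≤ 1 → ‖g z‖ ≤ C) ∧
      (∀ z, z ∉ A → b ≤ nrm z → nrm z ≤ 1 → ‖g z‖ ≤ η) ∧
      (∀ z, z ∉ A → ∀ r : ℝ, 0 < r → (r : ℂ) • z ∉ A) ∧
      (∀ R : ℝ, volume (A ∩ {z | nrm z ≤ R})
        ≤ ENNReal.ofReal ε * volume {z : Fin n → ℂ | nrm z ≤ R}) := by
  classical
  have hb0 : 0 < b := ha.trans hab
  set δ : ℝ := (b - a) / (2 * b) with hδ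
  have hδ0 : 0 < δ := div_pos (by linarith) (by linarith)
  set b' : ℝ := (a + b) / 2 with hb'
  have hbδ : (1 - δ) * b = b' := by
    rw [hδ, hb']; field_simp; ring
  have hab' : a < b' := by rw [hb']; linarith
  have hδ1 : 0 < 1 - δ := by
    have : 0 < (1 - δ) * b := by rw [hbδ]; linarith
    by_contra h
    push Not at h
    nlinarith
  obtain ⟨T, hT1, hT2⟩ := exists_net n δ hδ0
  obtain ⟨N, hN⟩ := exists_nat_ge ((T.card : ℝ) / ε + 1)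
  have hN0 : 0 < N := by
    have : (0 : ℝ) < N := by
      have : (0 : ℝ) ≤ (T.card : ℝ) / ε := by positivity
      linarith
    exact_mod_cast this
  have hTN : (T.card : ℝ) ≤ ε * N := by
    have h : (T.card : ℝ) / ε ≤ N := by linarith
    rw [div_le_iff₀ hε] at h
    linarith
  obtain ⟨c, hc0, hc2, hc⟩ := exists_c N hN0
  set C₁ : ℝ := 1 / c + 1 with hC₁
  have hC₁1 : 1 ≤ C₁ := by
    have : 0 < 1 / c := by positivity
    linarith
  have hC1 : 1 ≤ C₁ ^ T.card := one_le_pow₀ hC₁1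
  refine ⟨C₁ ^ T.card, hC1, fun η hη hη1 => ?_⟩
  set C : ℝ := C₁ ^ T.card with hC
  have hC0 : 0 < C := lt_of_lt_of_le one_pos hC1
  set η' : ℝ := η / (2 * C * (T.card + 1)) with hη'
  have hcard : (0 : ℝ) ≤ T.card := by positivity
  have hη'0 : 0 < η' := by positivity
  have hη'C : η' * C ≤ η := by
    rw [hη', div_mul_eq_mul_div, div_le_iff₀ (by positivity)]
    nlinarith [mul_nonneg hcard hC0.le, mul_pos hη hC0]
  have hη'1 : η' ≤ 1 := by nlinarith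
  have hη'T : (T.card : ℝ) * η' ≤ η / 2 := by
    rw [hη', mul_div_assoc', div_le_div_iff₀ (by positivity) (by norm_num)]
    nlinarith [mul_nonneg hcard hη.le, mul_nonneg (mul_nonneg hcard hη.le) (sub_nonneg.mpr hC1)]
  obtain ⟨M₀, hM₀⟩ := pow_unbounded_of_one_lt (16 / η' ^ 2)
    (show 1 < b' / a by rw [one_lt_div ha]; exact hab')
  set M : ℕ := M₀ + 1 with hM
  have hM0 : 0 < M := Nat.succ_pos _
  have haM : 0 < a ^ M := by positivity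
  have hMb : 16 * a ^ M / η' ^ 2 ≤ b' ^ M := by
    have h1 : 16 / η' ^ 2 < (b' / a) ^ M := by
      refine hM₀.trans_le (pow_le_pow_right₀ ?_ (Nat.le_succ _))
      rw [one_le_div ha]; exact hab'.le
    rw [div_pow b' a M, lt_div_iff₀ haM] at h1
    calc 16 * a ^ M / η' ^ 2 = 16 / η' ^ 2 * a ^ M := by ring
      _ ≤ _ := h1.le
  obtain ⟨Q, hQ1, hQ2, hQ3⟩ := exists_Q c η' (4 * a ^ M / η') hc0 hc2 hη'0 hη'1 (by positivity)
  have hpr : ∀ ξ ∈ T, ∀ z : Fin n → ℂ, ‖pr ξ z ^ M‖ ≤ nrm z ^ M := by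
    intro ξ hξ z
    rw [norm_pow]
    have := norm_pr_le ξ z
    rw [hT1 ξ hξ, one_mul] at this
    gcongr
  refine ⟨fun z => ∏ ξ ∈ T, Q.eval (pr ξ z ^ M), BadU T M c, ?_, measurableSet_BadU T M c,
    ?_, ?_, ?_, fun z hz r hr => notMem_BadU_smul hz hr,
    fun R => measure_BadU_le N hN0 c hc T M hM0 ε hTN R⟩
  · refine differentiable_prod T _ fun ξ _ => ?_
    exact Q.differentiable.comp ((differentiable_pr ξ).pow M)
  · intro z hz
    have hz1 : nrm z ^ M ≤ a ^ M := pow_le_pow_left₀ (nrm_nonneg z) hz M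
    have h1 : ∀ ξ ∈ T, ‖Q.eval (pr ξ z ^ M) - 1‖ ≤ η' := by
      intro ξ hξ
      have h2 := hpr ξ hξ z
      apply hQ1
      · calc ‖pr ξ z ^ M‖ ≤ a ^ M := h2.trans hz1
          _ = η' * (4 * a ^ M / η') / 4 := by field_simp
      · exact h2.trans (pow_le_one₀ (nrm_nonneg z) (by linarith))
    have h3 : (∏ ξ ∈ T, Q.eval (pr ξ z ^ M)) = ∏ ξ ∈ T, (1 + (Q.eval (pr ξ z ^ M) - 1)) :=
      Finset.prod_congr rfl fun ξ _ => by ring
    have h4 : ∑ ξ ∈ T, ‖Q.eval (pr ξ z ^ M) - 1‖ ≤ η / 2 := by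
      calc ∑ ξ ∈ T, ‖Q.eval (pr ξ z ^ M) - 1‖ ≤ ∑ _ξ ∈ T, η' := Finset.sum_le_sum h1
        _ = T.card * η' := by simp
        _ ≤ _ := hη'T
    have h5 : 0 ≤ ∑ ξ ∈ T, ‖Q.eval (pr ξ z ^ M) - 1‖ :=
      Finset.sum_nonneg fun _ _ => norm_nonneg _
    have h6 : ‖∏ ξ ∈ T, (1 + (Q.eval (pr ξ z ^ M) - 1)) - 1‖
        ≤ Real.exp (∑ ξ ∈ T, ‖Q.eval (pr ξ z ^ M) - 1‖) - 1 :=
      Finset.norm_prod_one_add_sub_one_le T (fun ξ => Q.eval (pr ξ z ^ M) - 1)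
    have h7 := Real.abs_exp_sub_one_le (x := ∑ ξ ∈ T, ‖Q.eval (pr ξ z ^ M) - 1‖)
      (by rw [abs_of_nonneg h5]; linarith)
    rw [abs_of_nonneg h5] at h7
    show ‖(∏ ξ ∈ T, Q.eval (pr ξ z ^ M)) - 1‖ ≤ η
    rw [h3]
    have h8 := (le_abs_self _).trans h7
    linarith
  · intro z hz hz1
    rw [notMem_BadU_iff] at hz
    show ‖∏ ξ ∈ T, Q.eval (pr ξ z ^ M)‖ ≤ C
    rw [norm_prod]
    refine prod_le_pow _ _ _ (fun _ _ => norm_nonneg _) fun ξ hξ => ?_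
    exact hQ2 _ (hz ξ hξ) ((hpr ξ hξ z).trans (pow_le_one₀ (nrm_nonneg z) hz1))
  · intro z hz hzb hz1
    rw [notMem_BadU_iff] at hz
    have hz0 : z ≠ 0 := by
      rintro rfl
      rw [nrm_zero] at hzb
      linarith
    obtain ⟨ξ₀, hξ₀, hlow⟩ := hT2 z hz0
    show ‖∏ ξ ∈ T, Q.eval (pr ξ z ^ M)‖ ≤ η
    rw [norm_prod, ← Finset.mul_prod_erase T _ hξ₀]
    have h1 : ‖Q.eval (pr ξ₀ z ^ M)‖ ≤ η' := by
      refine hQ3 _ (hz ξ₀ hξ₀) ?_ ((hpr ξ₀ hξ₀ z).trans (pow_le_one₀ (nrm_nonneg z) hz1))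
      have h2 : b' ≤ ‖pr ξ₀ z‖ := by
        calc b' = (1 - δ) * b := hbδ.symm
          _ ≤ (1 - δ) * nrm z := by gcongr
          _ ≤ _ := hlow
      calc 4 * (4 * a ^ M / η') / η' = 16 * a ^ M / η' ^ 2 := by field_simp; ring
        _ ≤ b' ^ M := hMb
        _ ≤ ‖pr ξ₀ z‖ ^ M := pow_le_pow_left₀ (by linarith) h2 M
        _ = _ := (norm_pow _ _).symm
    have h3 : ∏ ξ ∈ T.erase ξ₀, ‖Q.eval (pr ξ z ^ M)‖ ≤ C := by
      calc ∏ ξ ∈ T.erase ξ₀, ‖Q.eval (pr ξ z ^ M)‖ ≤ C₁ ^ (T.erase ξ₀).card := by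
            refine prod_le_pow _ _ _ (fun _ _ => norm_nonneg _) fun ξ hξ => ?_
            have hξ' := Finset.mem_of_mem_erase hξ
            exact hQ2 _ (hz ξ hξ') ((hpr ξ hξ' z).trans (pow_le_one₀ (nrm_nonneg z) hz1))
        _ ≤ C := pow_le_pow_right₀ hC₁1 (Finset.card_le_card (Finset.erase_subset _ _))
    calc ‖Q.eval (pr ξ₀ z ^ M)‖ * ∏ ξ ∈ T.erase ξ₀, ‖Q.eval (pr ξ z ^ M)‖
        ≤ η' * C := mul_le_mul h1 h3 (Finset.prod_nonneg fun _ _ => norm_nonneg _) hη'0.le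
      _ ≤ η := hη'C

end Pool.Agent.Y256.RZ
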